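import Pool.Agent.BE01.DefsC

/-!
# Squad BEL (MP_be01ff_an): interface between the core and the PDE part

The PDE part delivers, for a bounded open set, the data `Inp` (Hilbert basis of `L^2` by
eigenfunctions, indexed by the natural numbers in the order of the frequencies).  The core
delivers, for `Inp` data, the solutions `CoreSol` and the statement `CoreStmt`.  The PDE part
translates `CoreStmt` to energy solutions of the wave equation.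
-/

namespace Pool.Agent.BEL

open Set Filter Topology MeasureTheory
open scoped InnerProductSpace ENNReal

noncomputable section

/-- The damping function. -/
def gf (a al s : ℝ) : ℝ := a * |s| ^ al * s

variable {X : Type} [MeasurableSpace X]

/-- The input of the core: a finite measure space, a Hilbert basis `b` of its `L^2`, the
frequencies `om` (so that `b k` is an eigenvector of `- Laplace` with eigenvalue `om k ^ 2`),
damping exponent `al`.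

`i1` local Weyl bound; `i3` multiplication by a bounded function almost commutes with the
spectral projections, along a sequence (by Parseval every term of the sum is nonnegative);
`i4` Sobolev. -/
structure Inp (μ : Measure X) (al : ℝ) (b : HilbertBasis ℕ ℝ (Lp ℝ 2 μ)) (om : ℕ → ℝ) : Prop where
  fin : IsFiniteMeasure μ
  pos : ∀ k, 0 < om k
  mono : Monotone om
  top : Tendsto om atTop atTop
  i1 : ∃ C : ℝ, ∀ n : ℕ, ∀ᵐ x ∂μ, ∑ k ∈ Finset.range n, (b k x) ^ 2 ≤ C * n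
  i3 : ∃ s : ℕ → ℕ, StrictMono s ∧ ∀ f : X → ℝ, Measurable f → (∃ M : ℝ, ∀ x, |f x| ≤ M) →
    Tendsto (fun i => (1 / (s i : ℝ)) * ∑ k ∈ Finset.range (s i),
      (∫ x, (f x * b k x) ^ 2 ∂μ - ∑ l ∈ Finset.range (s i), (∫ x, f x * b k x * b l x ∂μ) ^ 2))
      atTop (𝓝 0)
  i4 : ∃ p : ℝ, al + 2 < p ∧ ∃ C : ℝ, ∀ (n : ℕ) (c : ℕ → ℝ),
    eLpNorm (fun x => ∑ k ∈ Finset.range n, c k * b k x) (ENNReal.ofReal p) μ ≤
      ENNReal.ofReal (C * Real.sqrt (∑ k ∈ Finset.range n, om k ^ 2 * c k ^ 2))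

/-- The energy of a pair, `z1 = (- Laplace)^(1/2) u`, `z2 = u_t`. -/
def enr (μ : Measure X) (z1 z2 : ℝ → Lp ℝ 2 μ) (t : ℝ) : ℝ := ‖z1 t‖ ^ 2 + ‖z2 t‖ ^ 2

/-- Solutions of the abstract equation `z1' = L^(1/2) z2`, `z2' = - L^(1/2) z1 - g(z2)` for
`t ≥ 0`, mode by mode, with the energy inequality. -/
structure CoreSol (μ : Measure X) (a al : ℝ) (b : HilbertBasis ℕ ℝ (Lp ℝ 2 μ)) (om : ℕ → ℝ)
    (z1 z2 : ℝ → Lp ℝ 2 μ) : Prop where
  c1 : ContinuousOn z1 (Ici 0)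
  c2 : ContinuousOn z2 (Ici 0)
  en : ∀ s t, 0 ≤ s → s ≤ t → ENNReal.ofReal (enr μ z1 z2 t) +
    ENNReal.ofReal (2 * a) * ∫⁻ r in Icc s t, ∫⁻ x, ENNReal.ofReal (|z2 r x| ^ (al + 2)) ∂μ ≤
      ENNReal.ofReal (enr μ z1 z2 s)
  gint : ∀ k t, 0 ≤ t →
    IntervalIntegrable (fun s => ∫ x, gf a al (z2 s x) * b k x ∂μ) volume 0 t
  m1 : ∀ k t, 0 ≤ t → ⟪b k, z1 t⟫_ℝ = ⟪b k, z1 0⟫_ℝ + om k * ∫ s in (0:ℝ)..t, ⟪b k, z2 s⟫_ℝ
  m2 : ∀ k t, 0 ≤ t → ⟪b k, z2 t⟫_ℝ = ⟪b k, z2 0⟫_ℝ -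
    ∫ s in (0:ℝ)..t, (om k * ⟪b k, z1 s⟫_ℝ + ∫ x, gf a al (z2 s x) * b k x ∂μ)

/-- The lower logarithmic density of `A` is at least `g` (in the strong form: the quotient is
at least `g` for all large times). -/
def LowLog (A : Set ℝ) (g : ℝ) : Prop :=
  ∀ᶠ T : ℝ in atTop, g * Real.log T ≤ ∫ t in (1:ℝ)..T, A.indicator (fun s => s⁻¹) t

/-- The result of the core (delivered by helper53; used by row FIN). -/
def CoreStmt : Prop :=
  ∀ (X : Type) [MeasurableSpace X] (μ : Measure X) (a al : ℝ) (b : HilbertBasis ℕ ℝ (Lp ℝ 2 μ))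
    (om : ℕ → ℝ), 0 < a → 0 < al → Inp μ al b om →
    ∃ c C g : ℝ, 0 < c ∧ 0 < C ∧ 0 < g ∧
      (∀ (x y : Lp ℝ 2 μ) (ε : ℝ), 0 < ε → ∃ z1 z2 : ℝ → Lp ℝ 2 μ,
        CoreSol μ a al b om z1 z2 ∧ ‖z1 0 - x‖ < ε ∧ ‖z2 0 - y‖ < ε ∧
        (∃ M : ℝ, ∀ t, 0 ≤ t → enr μ z1 z2 t ≤ M * (1 + t) ^ (-(2 / al))) ∧
        (∀ᶠ t : ℝ in atTop, enr μ z1 z2 t ≤ C * t ^ (-(2 / al))) ∧
        LowLog {t | c * t ^ (-(2 / al)) ≤ enr μ z1 z2 t} g) ∧
      (∃ D : Set (Lp ℝ 2 μ × Lp ℝ 2 μ), IsGδ D ∧ Dense D ∧ ∀ P ∈ D,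
        ∃ z1 z2 : ℝ → Lp ℝ 2 μ, CoreSol μ a al b om z1 z2 ∧ (z1 0, z2 0) = P ∧
        ∃ᶠ t : ℝ in atTop, c * t ^ (-(2 / al)) ≤ enr μ z1 z2 t)

end

end Pool.Agent.BEL
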