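import Pool.Agent.BEL.StmtsP

/-!
# Squad BEL (MP_be01ff_an): the stronger second part (upper logarithmic density for generic data)
-/

namespace Pool.Agent.BEL

open Set Filter Topology MeasureTheory
open scoped InnerProductSpace ENNReal
open Pool.Agent.BE01

noncomputable section

/-- The upper logarithmic density of `A` is at least `g` (in the strong form: the quotient is
at least `g` for arbitrarily large times). -/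
def UppLog (A : Set ℝ) (g : ℝ) : Prop :=
  ∃ᶠ T : ℝ in atTop, g * Real.log T ≤ ∫ t in (1:ℝ)..T, A.indicator (fun s => s⁻¹) t

/-- GD2: the dense `G_δ` of data with positive upper logarithmic density.  Proof: call `V₀` good
if it has the property of the hypothesis.  For `T ≥ 1`, `r(T) = (1 - 1/√2) √c T^(-1/al)`: if
`‖V - V₀‖ < r(T)`, then for `1 ≤ t ≤ T` with `√c t^(-1/al) ≤ ‖S t V₀‖` also
`√(c/2) t^(-1/al) ≤ ‖S t V‖`.  So the integral for `V` up to `T` is at least the one for `V₀`.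
`U_n` = union of the balls `B(V₀, r(T))`, `V₀` good, `T ≥ n` so large that the inequality of
`LowLog` holds for `V₀` and `T`.  `D = ⋂ U_n` contains the good `V₀`. -/
def Gd2Stmt : Prop := ∀ (K : Type) [NormedAddCommGroup K] (al c g : ℝ) (S : ℝ → K → K),
  0 < al → 0 < c → (∀ t V V', 0 ≤ t → ‖S t V - S t V'‖ ≤ ‖V - V'‖) →
  (∀ V, ContinuousOn (fun t => S t V) (Ici 0)) →
  (∀ (V0 : K) (ρ : ℝ), 0 < ρ → ∃ V, ‖V - V0‖ < ρ ∧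
    LowLog {t | c * t ^ (-(2 / al)) ≤ ‖S t V‖ ^ 2} g) →
  ∃ D : Set K, IsGδ D ∧ Dense D ∧ ∀ V ∈ D,
    UppLog {t | c / 2 * t ^ (-(2 / al)) ≤ ‖S t V‖ ^ 2} g

/-- The result of the core, with the stronger second part. -/
def Core2Stmt : Prop :=
  ∀ (X : Type) [MeasurableSpace X] (μ : Measure X) (a al : ℝ) (b : HilbertBasis ℕ ℝ (Lp ℝ 2 μ))
    (om : ℕ → ℝ), 0 < a → 0 < al → Inp μ al b om →
    ∃ c C g : ℝ, 0 < c ∧ 0 < C ∧ 0 < g ∧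
      (∀ (x y : Lp ℝ 2 μ) (ε : ℝ), 0 < ε → ∃ z1 z2 : ℝ → Lp ℝ 2 μ,
        CoreSol μ a al b om z1 z2 ∧ ‖z1 0 - x‖ < ε ∧ ‖z2 0 - y‖ < ε ∧
        (∃ M : ℝ, ∀ t, 0 ≤ t → enr μ z1 z2 t ≤ M * (1 + t) ^ (-(2 / al))) ∧
        (∀ᶠ t : ℝ in atTop, enr μ z1 z2 t ≤ C * t ^ (-(2 / al))) ∧
        LowLog {t | c * t ^ (-(2 / al)) ≤ enr μ z1 z2 t} g) ∧
      (∃ D : Set (Lp ℝ 2 μ × Lp ℝ 2 μ), IsGδ D ∧ Dense D ∧ ∀ P ∈ D,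
        ∃ z1 z2 : ℝ → Lp ℝ 2 μ, CoreSol μ a al b om z1 z2 ∧ (z1 0, z2 0) = P ∧
        (∀ᶠ t : ℝ in atTop, enr μ z1 z2 t ≤ C * t ^ (-(2 / al))) ∧
        UppLog {t | c * t ^ (-(2 / al)) ≤ enr μ z1 z2 t} g)

/-- The result, with the stronger second part. -/
def Fin2Stmt : Prop := ∀ (d : ℕ) (Ω : Set (En d)) (a α : ℝ), 0 < d → Dom Ω → 0 < a → 0 < α →
  ((d : ℝ) - 2) * α < 4 → ∃ c C g : ℝ, 0 < c ∧ 0 < C ∧ 0 < g ∧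
    (∀ (u₀ v₀ : Lp ℝ 2 (mu Ω)) (G₀ : Lp (En d) 2 (mu Ω)) (ε : ℝ), (u₀, G₀) ∈ H10 Ω → 0 < ε →
      ∃ (u v : ℝ → Lp ℝ 2 (mu Ω)) (G : ℝ → Lp (En d) 2 (mu Ω)), EnSol Ω a α u v G ∧
        ‖u 0 - u₀‖ < ε ∧ ‖G 0 - G₀‖ < ε ∧ ‖v 0 - v₀‖ < ε ∧
        (∃ M : ℝ, ∀ t, 0 ≤ t → energy Ω v G t ≤ M * (1 + t) ^ (-(2 / α))) ∧
        (∀ᶠ t : ℝ in atTop, energy Ω v G t ≤ C * t ^ (-(2 / α))) ∧
        LowLog {t | c * t ^ (-(2 / α)) ≤ energy Ω v G t} g) ∧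
    ∃ D : Set (Lp ℝ 2 (mu Ω) × Lp (En d) 2 (mu Ω) × Lp ℝ 2 (mu Ω)), IsGδ D ∧
      D ⊆ {P | (P.1, P.2.1) ∈ H10 Ω} ∧ {P | (P.1, P.2.1) ∈ H10 Ω} ⊆ closure D ∧
      ∀ P ∈ D, ∃ (u v : ℝ → Lp ℝ 2 (mu Ω)) (G : ℝ → Lp (En d) 2 (mu Ω)), EnSol Ω a α u v G ∧
        (u 0, G 0, v 0) = P ∧ (∀ᶠ t : ℝ in atTop, energy Ω v G t ≤ C * t ^ (-(2 / α))) ∧
        UppLog {t | c * t ^ (-(2 / α)) ≤ energy Ω v G t} g

end

end Pool.Agent.BEL
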