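import Pool.Agent.BEL.StmtsQ

/-!
# Squad BEL (MP_be01ff_an): uniqueness of the energy solutions, and the result for all of them
-/

namespace Pool.Agent.BEL

open Set Filter Topology MeasureTheory
open scoped InnerProductSpace ENNReal
open Pool.Agent.BE01

noncomputable section

/-- TRC (uses LPE): translation from the domain.  Every energy solution is given by a core
solution.  Proof: `z1 t = (UU b e).symm` of the orthogonal projection of `G t` on `VV Ω`, so by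
`dom` and `Grf` `UU b e (z1 t) = G t` and `u t = ι (G t)` for `t ≥ 0`.  `m1`: `du` and `rel`.
`gint`, `m2`: both sides of the weak equation, as functions of `P = ∇ψ` in `VV Ω` with
`ψ = ι P`, are continuous (LPE, Hölder and `en`, as in TRW), the gradients of the test functions
are dense in `VV Ω`; take `P = om_k e_k`, `ι P = b_k`. -/
def TrcStmt : Prop := ∀ (d : ℕ) (Ω : Set (En d)) (ι : VV Ω →L[ℝ] Lp ℝ 2 (mu Ω))
  (b : HilbertBasis ℕ ℝ (Lp ℝ 2 (mu Ω))) (e : HilbertBasis ℕ ℝ (VV Ω)) (om : ℕ → ℝ) (a al : ℝ)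
  (u v : ℝ → Lp ℝ 2 (mu Ω)) (G : ℝ → Lp (En d) 2 (mu Ω)), 0 < d → Dom Ω → Emb2 Ω ι → Grf Ω ι →
  Spec Ω ι b e om → 0 < a → 0 < al → ((d : ℝ) - 2) * al < 4 → EnSol Ω a al u v G →
    ∃ z1 : ℝ → Lp ℝ 2 (mu Ω), CoreSol (mu Ω) a al b om z1 v ∧
      (∀ t, 0 ≤ t → u t = ι (UU b e (z1 t)) ∧
        G t = ((UU b e (z1 t) : VV Ω) : Lp (En d) 2 (mu Ω))) ∧
      ∀ t, 0 ≤ t → energy Ω v G t = enr (mu Ω) z1 v t

/-- The result.

Existence for all data; the distance of two energy solutions in the energy norm is nonincreasing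
(so there is uniqueness).  For a dense set of data the energy solution has the optimal decay, the
optimal lower bound on a set of times of positive lower logarithmic density, and a polynomial
lower bound at all times.  For the data of a dense `G_δ` the energy solution has the optimal lower
bound on a set of times of positive upper logarithmic density. -/
def Fin3Stmt : Prop := ∀ (d : ℕ) (Ω : Set (En d)) (a α : ℝ), 0 < d → Dom Ω → 0 < a → 0 < α →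
  ((d : ℝ) - 2) * α < 4 →
    (∀ (u₀ v₀ : Lp ℝ 2 (mu Ω)) (G₀ : Lp (En d) 2 (mu Ω)), (u₀, G₀) ∈ H10 Ω →
      ∃ (u v : ℝ → Lp ℝ 2 (mu Ω)) (G : ℝ → Lp (En d) 2 (mu Ω)), EnSol Ω a α u v G ∧
        u 0 = u₀ ∧ G 0 = G₀ ∧ v 0 = v₀) ∧
    (∀ (u v u' v' : ℝ → Lp ℝ 2 (mu Ω)) (G G' : ℝ → Lp (En d) 2 (mu Ω)), EnSol Ω a α u v G →
      EnSol Ω a α u' v' G' →
      (∀ s t, 0 ≤ s → s ≤ t →
        ‖G t - G' t‖ ^ 2 + ‖v t - v' t‖ ^ 2 ≤ ‖G s - G' s‖ ^ 2 + ‖v s - v' s‖ ^ 2) ∧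
      (G 0 = G' 0 → v 0 = v' 0 → ∀ t, 0 ≤ t → u t = u' t ∧ G t = G' t ∧ v t = v' t)) ∧
    ∃ c C g K : ℝ, 0 < c ∧ 0 < C ∧ 0 < g ∧ 0 < K ∧
      (∀ (u₀ v₀ : Lp ℝ 2 (mu Ω)) (G₀ : Lp (En d) 2 (mu Ω)) (ε : ℝ), (u₀, G₀) ∈ H10 Ω → 0 < ε →
        ∃ (u₁ v₁ : Lp ℝ 2 (mu Ω)) (G₁ : Lp (En d) 2 (mu Ω)), (u₁, G₁) ∈ H10 Ω ∧
          ‖u₁ - u₀‖ < ε ∧ ‖G₁ - G₀‖ < ε ∧ ‖v₁ - v₀‖ < ε ∧
          ∀ (u v : ℝ → Lp ℝ 2 (mu Ω)) (G : ℝ → Lp (En d) 2 (mu Ω)), EnSol Ω a α u v G →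
            G 0 = G₁ → v 0 = v₁ →
            (∃ M : ℝ, ∀ t, 0 ≤ t → energy Ω v G t ≤ M * (1 + t) ^ (-(2 / α))) ∧
            (∃ m : ℝ, 0 < m ∧ ∀ t, 0 ≤ t → m * (1 + t) ^ (-K) ≤ energy Ω v G t) ∧
            (∀ᶠ t : ℝ in atTop, energy Ω v G t ≤ C * t ^ (-(2 / α))) ∧
            LowLog {t | c * t ^ (-(2 / α)) ≤ energy Ω v G t} g) ∧
      ∃ D : Set (Lp ℝ 2 (mu Ω) × Lp (En d) 2 (mu Ω) × Lp ℝ 2 (mu Ω)), IsGδ D ∧
        D ⊆ {P | (P.1, P.2.1) ∈ H10 Ω} ∧ {P | (P.1, P.2.1) ∈ H10 Ω} ⊆ closure D ∧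
        ∀ (u v : ℝ → Lp ℝ 2 (mu Ω)) (G : ℝ → Lp (En d) 2 (mu Ω)), EnSol Ω a α u v G →
          (u 0, G 0, v 0) ∈ D →
          (∀ᶠ t : ℝ in atTop, energy Ω v G t ≤ C * t ^ (-(2 / α))) ∧
          UppLog {t | c * t ^ (-(2 / α)) ≤ energy Ω v G t} g

end

end Pool.Agent.BEL
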