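import Mathlib

/-!
# Squad BEL (MP_be01ff_an), definitions of the core (no PDE)

`H` is a real Hilbert space (later `Lp ℝ 2 μ`), `KK H = H × H` with the Hilbert norm: the state
`z = (p, v)`, `p = Λ u`, `v = u_t`, `Λ` = diagonal operator with the entries `om j` in the Hilbert
basis `b`.
-/

namespace Pool.Agent.BEL

open MeasureTheory Filter Topology Set
open scoped InnerProductSpace ENNReal

noncomputable section

/-! ## The truncated nonlinearity -/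

/-- `min (|s|, l) ^ al`. -/
def mm (al l s : ℝ) : ℝ := (min |s| l) ^ al

/-- The derivative of `gl`: `a (al + 1) min (|s|, l) ^ al`. -/
def ql (a al l s : ℝ) : ℝ := a * (al + 1) * mm al l s

/-- The truncation of `g(s) = a |s|^al s` at level `l`: equal to `g` on `[-l, l]`, slope
`a (al + 1) l ^ al` outside. -/
def gl (a al l s : ℝ) : ℝ := ∫ r in (0 : ℝ)..s, ql a al l r

/-- The truncated derivative of `g`: `min (a (al + 1) |s|^al, M)`. -/
def cf (a al M s : ℝ) : ℝ := min (a * (al + 1) * |s| ^ al) M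

/-! ## The state space -/

section hilb

variable (H : Type) [NormedAddCommGroup H] [InnerProductSpace ℝ H]

/-- The state space. -/
abbrev KK := WithLp 2 (H × H)

variable {H}

/-- First component. -/
def P1 : KK H →L[ℝ] H := WithLp.fstL 2 ℝ H H

/-- Second component (the velocity). -/
def P2 : KK H →L[ℝ] H := WithLp.sndL 2 ℝ H H

/-- `v ↦ (0, v)`. -/
def inj : H →L[ℝ] KK H :=
  ((WithLp.prodContinuousLinearEquiv 2 ℝ H H).symm : (H × H) →L[ℝ] KK H).comp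
    (ContinuousLinearMap.inr ℝ H H)

variable {κ : Type}

/-- The free group: rotation with speed `om j` in the plane of the `j`-th coordinates. -/
structure Grp (b : HilbertBasis κ ℝ H) (om : κ → ℝ) (W : ℝ → KK H →L[ℝ] KK H) : Prop where
  c1 : ∀ t z j, ⟪b j, P1 (W t z)⟫_ℝ =
    Real.cos (om j * t) * ⟪b j, P1 z⟫_ℝ + Real.sin (om j * t) * ⟪b j, P2 z⟫_ℝ
  c2 : ∀ t z j, ⟪b j, P2 (W t z)⟫_ℝ =
    -Real.sin (om j * t) * ⟪b j, P1 z⟫_ℝ + Real.cos (om j * t) * ⟪b j, P2 z⟫_ℝ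

/-- The operator `Λ⁻¹`. -/
def IsR (b : HilbertBasis κ ℝ H) (om : κ → ℝ) (R : H →L[ℝ] H) : Prop :=
  ∀ z j, ⟪b j, R z⟫_ℝ = ⟪b j, z⟫_ℝ / om j

/-- The flow of `U' = A U - (0, F (U.2))` in the rotating frame: `U t = W t (Z t)`. -/
structure IsFl (W : ℝ → KK H →L[ℝ] KK H) (F : H → H) (V : KK H) (Z : ℝ → KK H) : Prop where
  z0 : Z 0 = V
  eq : ∀ t, HasDerivAt Z (-(W (-t) (inj (F (P2 (W t (Z t))))))) t

/-- `Z l V` is the flow with nonlinearity `F l` and initial datum `V`; `S` is the limit for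
`l → ∞` of `W t (Z l V t)`. -/
structure IsLim (W : ℝ → KK H →L[ℝ] KK H) (F : ℕ → H → H) (Z : ℕ → KK H → ℝ → KK H)
    (S : ℝ → KK H → KK H) : Prop where
  fl : ∀ n V, IsFl W (F n) V (Z n V)
  lim : ∀ V T, TendstoUniformlyOn (fun n t => W t (Z n V t)) (fun t => S t V) atTop (Icc 0 T)

/-- The orthogonal projection on the span of the `b j`, `j ∈ J`. -/
def PJ (b : HilbertBasis κ ℝ H) (J : Finset κ) : H →L[ℝ] H :=
  ∑ j ∈ J, (innerSL ℝ (b j)).smulRight (b j)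

/-- The orthogonal projection of `KK H` on `P_J H × P_J H`. -/
def PK (b : HilbertBasis κ ℝ H) (J : Finset κ) : KK H →L[ℝ] KK H :=
  ((WithLp.prodContinuousLinearEquiv 2 ℝ H H).symm : (H × H) →L[ℝ] KK H).comp
    (((PJ b J).comp P1).prod ((PJ b J).comp P2))

end hilb

/-! ## Function spaces -/

section fct

variable {X : Type} [MeasurableSpace X] (μ : Measure X)

/-- The Nemytskii operator of `g`. -/
def nem (g : ℝ → ℝ) (v : Lp ℝ 2 μ) : Lp ℝ 2 μ := by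
  classical
  exact if h : MemLp (fun x => g (v x)) 2 μ then h.toLp _ else 0

/-- Multiplication by the function `f`. -/
def ml (f : X → ℝ) (v : Lp ℝ 2 μ) : Lp ℝ 2 μ := by
  classical
  exact if h : MemLp (fun x => f x * v x) 2 μ then h.toLp _ else 0

variable {κ : Type}

/-- `‖(1 - P_J) (f v)‖²`. -/
def lk (b : HilbertBasis κ ℝ (Lp ℝ 2 μ)) (J : Finset κ) (f : X → ℝ) (v : Lp ℝ 2 μ) : ℝ :=
  ‖ml μ f v - PJ b J (ml μ f v)‖ ^ 2

/-- The inputs of the core: a sequence of finite sets of indices with a local Weyl law (`j1`), a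
commutator estimate (`j3`), and a Sobolev embedding (`emb`). -/
structure Cor (a al : ℝ) (b : HilbertBasis κ ℝ (Lp ℝ 2 μ)) (om : κ → ℝ)
    (R : Lp ℝ 2 μ →L[ℝ] Lp ℝ 2 μ) (W : ℝ → KK (Lp ℝ 2 μ) →L[ℝ] KK (Lp ℝ 2 μ))
    (Js : ℕ → Finset κ) : Prop where
  a_pos : 0 < a
  al_pos : 0 < al
  pos : ∃ w0 > 0, ∀ j, w0 ≤ om j
  grp : Grp b om W
  isr : IsR b om R
  j0 : Tendsto (fun n => (Js n).card) atTop atTop
  j1 : ∃ C > 0, ∀ n, ∀ᵐ x ∂μ, ∑ j ∈ Js n, (b j x) ^ 2 ≤ C * (Js n).card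
  j2 : ∀ j, ∀ᶠ n in atTop, j ∈ Js n
  j3 : ∀ f : X → ℝ, Measurable f → (∃ M, ∀ x, |f x| ≤ M) →
    Tendsto (fun n => (1 / ((Js n).card : ℝ)) * ∑ j ∈ Js n, lk μ b (Js n) f (b j)) atTop (𝓝 0)
  emb : ∃ p > al + 2, ∃ C > 0, ∀ z, MemLp (R z) (ENNReal.ofReal p) μ ∧
    ∫ x, |R z x| ^ p ∂μ ≤ (C * ‖z‖) ^ p

end fct

end

end Pool.Agent.BEL
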