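import Pool.Agent.BEL.DefsG
import Pool.Agent.BEL.Defs

/-!
# Squad BEL (MP_be01ff_an), more definitions of the core
-/

namespace Pool.Agent.BEL

open MeasureTheory Filter Topology Set
open scoped InnerProductSpace ENNReal

noncomputable section

/-! ## Signs -/

/-- The sign of a boolean. -/
def sg (b : Bool) : ℝ := if b then 1 else -1

/-- Average over the sign patterns. -/
def av {r : ℕ} (F : (Fin r → Bool) → ℝ) : ℝ := (1 / (2 : ℝ) ^ r) * ∑ e, F e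

/-! ## Parameters: `lam = 1 / (2 (al + 2))`, so `lam (al + 2) / 2 = 1/4` and `lam < 1/al` -/

/-- The exponent of the backward growth. -/
def lam (al : ℝ) : ℝ := 1 / (2 * (al + 2))

/-- `mu = 2^(-lam m)`. -/
def mup (al : ℝ) (m : ℕ) : ℝ := (2 : ℝ) ^ (-(lam al * m))

/-- `log (1/mu) = lam m log 2`, and `lgm` is a quarter of it. -/
def lgm (al : ℝ) (m : ℕ) : ℝ := Real.log (1 / mup al m) / 4

/-- `nu = min (1, lgm / 8)`. -/
def nup (al : ℝ) (m : ℕ) : ℝ := min 1 (lgm al m / 8)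

/-- `M = 4 / sqrt mu`. -/
def Map (al : ℝ) (m : ℕ) : ℝ := 4 / Real.sqrt (mup al m)

/-- The bound of the backward growth (squared) over `i` blocks. -/
def Gr (al : ℝ) (m i : ℕ) : ℝ := Map al m / nup al m * ((mup al m) ^ i)⁻¹

/-- `m` is large enough. -/
structure Prm (al : ℝ) (m : ℕ) : Prop where
  al_pos : 0 < al
  m1 : 2 ≤ lam al * m
  m2 : (2 : ℝ) ^ (-(m * (1 / al - lam al / 2))) ≤ 1 / 20
  m3 : 2 * (2 : ℝ) ^ (-(m / al)) ≤ 1 / 20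

/-- The times `2^(m k) - 1`. -/
def tm (m k : ℕ) : ℝ := (2 : ℝ) ^ (m * k) - 1

section st

variable {X : Type} [MeasurableSpace X] (μ : Measure X) {κ : Type}

/-- `2^(m k / al) ‖S (tm k) V‖`. -/
def am {K : Type} [NormedAddCommGroup K] (al : ℝ) (m : ℕ) (S : ℝ → K → K) (V : K) (k : ℕ) : ℝ :=
  (2 : ℝ) ^ ((m * k : ℝ) / al) * ‖S (tm m k) V‖

/-! ## The terms of the perturbation estimate -/

/-- `∫ |y|^(al+2)`. -/
def h1 (al : ℝ) (y : Lp ℝ 2 μ) : ℝ := ∫ x, |y x| ^ (al + 2) ∂μ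

/-- `∫ min (|w|, l)^(al-2) y^4` if `al > 2`, `0` otherwise. -/
def h2 (al l : ℝ) (w y : Lp ℝ 2 μ) : ℝ := by
  classical
  exact if 2 < al then ∫ x, mm (al - 2) l (w x) * (y x) ^ 4 ∂μ else 0

/-- `∫ (ql w - M)^+ y^2`. -/
def h3 (a al l M : ℝ) (w y : Lp ℝ 2 μ) : ℝ :=
  ∫ x, max (ql a al l (w x) - M) 0 * (y x) ^ 2 ∂μ

/-- `∫ (min (ql w, M) - cf v)^2 y^2`. -/
def h4 (a al l M : ℝ) (w v y : Lp ℝ 2 μ) : ℝ :=
  ∫ x, (min (ql a al l (w x)) M - cf a al M (v x)) ^ 2 * (y x) ^ 2 ∂μ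

/-- The function `x ↦ cf (v x)`. -/
def cfv (a al M : ℝ) (v : Lp ℝ 2 μ) : X → ℝ := fun x => cf a al M (v x)

/-- The total; `s` is the length of the time interval. -/
def hh (a al l M s : ℝ) (b : HilbertBasis κ ℝ (Lp ℝ 2 μ)) (J : Finset κ) (w v y : Lp ℝ 2 μ) : ℝ :=
  h1 μ al y + h2 μ al l w y + h3 μ a al l M w y +
    s * (h4 μ a al l M w v y + lk μ b J (cfv μ a al M v) y)

/-! ## The linearized Galerkin flow -/

/-- `e` is an isometry of `E` onto `P_J H × P_J H`, and `Y t = e (Φ t c)` solves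
`Y' = - P_J W(-t) (0, cf(v t) (W t Y).2)`. -/
structure Lf (a al M : ℝ) (b : HilbertBasis κ ℝ (Lp ℝ 2 μ))
    (W : ℝ → KK (Lp ℝ 2 μ) →L[ℝ] KK (Lp ℝ 2 μ)) (J : Finset κ) (v : ℝ → Lp ℝ 2 μ)
    {E : Type} [NormedAddCommGroup E] [InnerProductSpace ℝ E]
    (e : E →ₗᵢ[ℝ] KK (Lp ℝ 2 μ)) (Φ : ℝ → E →L[ℝ] E) : Prop where
  rng : ∀ z, PK b J z = z ↔ ∃ c, e c = z
  zero : ∀ c, Φ 0 c = c
  der : ∀ c t, HasDerivAt (fun t => e (Φ t c))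
    (-(PK b J (W (-t) (inj (ml μ (cfv μ a al M (v t)) (P2 (W t (e (Φ t c))))))))) t
  anti : ∀ c s t, s ≤ t → ‖Φ t c‖ ≤ ‖Φ s c‖
  det_pos : ∀ t, 0 < LinearMap.det (Φ t : E →ₗ[ℝ] E)

end st

/-- The conclusion of the backup lemma, for a family `S` of maps of a normed space. -/
def Bkp {K : Type} [NormedAddCommGroup K] (al : ℝ) (m : ℕ) (S : ℝ → K → K) (C1 c1 : ℝ) : Prop :=
  ∀ c, 0 < c → c ≤ c1 → ∀ V : K, ∃ k1 : ℕ, ∀ (N : ℕ) (δ : ℝ), 0 < δ →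
    ∃ bad : Finset ℕ, bad ⊆ Finset.range N ∧
      lgm al m * (bad.card : ℝ) ≤ nup al m * N +
        C1 * ∑ j ∈ Finset.range N, (am al m S V j) ^ (2 * al / (al + 2)) + δ ∧
      ∀ k < N, k1 ≤ k → k ∉ bad → ∃ D : K,
        ‖D‖ ≤ C1 * c * (2 : ℝ) ^ (-((m * k : ℝ) * (1 / al - lam al / 2))) ∧
        6 * c * (2 : ℝ) ^ (-((m * k : ℝ) / al)) ≤ ‖S (tm m k) (V + D)‖ + ‖S (tm m k) V‖ ∧
        ∀ i < k, ‖S (tm m i) V‖ - (1 / 32) * c * (2 : ℝ) ^ (-((m * k : ℝ) / al)) - δ ≤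
          ‖S (tm m i) (V + D)‖

end

end Pool.Agent.BEL
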