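import Pool.Agent.BEL.Defs

/-!
# Squad BEL (MP_be01ff_an): definitions of the PDE part

`En d` Euclidean space, `mu Ω` Lebesgue measure on `Ω`, `Dom`, `Tst`, `H10`, `VV`, `energy` are
those of `Pool/Agent/BE01/DefsC.lean`.
-/

namespace Pool.Agent.BEL

open Set Filter Topology MeasureTheory
open scoped InnerProductSpace ENNReal
open Pool.Agent.BE01

noncomputable section

variable {d : ℕ}

/-- `ι`, from the space `VV Ω` of the gradients to `L^2`, is the inverse of the gradient. -/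
def Emb2 (Ω : Set (En d)) (ι : VV Ω →L[ℝ] Lp ℝ 2 (mu Ω)) : Prop :=
  ∀ ψ, Tst Ω ψ → ∀ G : VV Ω, (G : Lp (En d) 2 (mu Ω)) =ᵐ[mu Ω] gradient ψ → ι G =ᵐ[mu Ω] ψ

/-- `H^1_0(Ω)` is the graph of `ι`. -/
def Grf (Ω : Set (En d)) (ι : VV Ω →L[ℝ] Lp ℝ 2 (mu Ω)) : Prop :=
  ∀ (u : Lp ℝ 2 (mu Ω)) (G : Lp (En d) 2 (mu Ω)), (u, G) ∈ H10 Ω ↔
    ∃ hG : G ∈ VV Ω, u = ι ⟨G, hG⟩

/-- The eigenfunctions `b k` (eigenvalue `om k ^ 2`) and their normalized gradients `e k`. -/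
structure Spec (Ω : Set (En d)) (ι : VV Ω →L[ℝ] Lp ℝ 2 (mu Ω))
    (b : HilbertBasis ℕ ℝ (Lp ℝ 2 (mu Ω))) (e : HilbertBasis ℕ ℝ (VV Ω)) (om : ℕ → ℝ) :
    Prop where
  pos : ∀ k, 0 < om k
  mono : Monotone om
  top : Tendsto om atTop atTop
  rel : ∀ (k : ℕ) (G : VV Ω), ⟪b k, ι G⟫_ℝ = (om k)⁻¹ * ⟪e k, G⟫_ℝ

/-- The isometry of `L^2` onto `VV Ω` mapping `b k` to `e k`. -/
def UU {Ω : Set (En d)} (b : HilbertBasis ℕ ℝ (Lp ℝ 2 (mu Ω))) (e : HilbertBasis ℕ ℝ (VV Ω)) :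
    Lp ℝ 2 (mu Ω) ≃ₗᵢ[ℝ] VV Ω := b.repr.trans e.repr.symm

/-- `u` is the value at time `t` of the heat semigroup with initial datum `f`. -/
def Heat {Ω : Set (En d)} (b : HilbertBasis ℕ ℝ (Lp ℝ 2 (mu Ω))) (om : ℕ → ℝ) (t : ℝ)
    (f u : Lp ℝ 2 (mu Ω)) : Prop :=
  ∀ k, ⟪b k, u⟫_ℝ = Real.exp (-(t * om k ^ 2)) * ⟪b k, f⟫_ℝ

/-- Energy solutions of `u_tt - Δ u + a |u_t|^α u_t = 0`, `u = 0` on the boundary, for `t ≥ 0`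
(`v = u_t`, `G = ∇ u`): continuous with values in the energy space `H^1_0 × L^2`, the velocity
is in `L^(α+2)` locally in time, with the energy inequality between any two times, and the
equation holds in the sense of distributions, integrated in time. -/
structure EnSol (Ω : Set (En d)) (a α : ℝ) (u v : ℝ → Lp ℝ 2 (mu Ω))
    (G : ℝ → Lp (En d) 2 (mu Ω)) : Prop where
  dom : ∀ t, 0 ≤ t → (u t, G t) ∈ H10 Ω
  v_cont : ContinuousOn v (Ici 0)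
  G_cont : ContinuousOn G (Ici 0)
  du : ∀ t, 0 ≤ t → u t = u 0 + ∫ s in (0:ℝ)..t, v s
  en : ∀ s t, 0 ≤ s → s ≤ t → ENNReal.ofReal (energy Ω v G t) +
    ENNReal.ofReal (2 * a) * ∫⁻ r in Icc s t, ∫⁻ x, ENNReal.ofReal (|v r x| ^ (α + 2)) ∂(mu Ω) ≤
      ENNReal.ofReal (energy Ω v G s)
  gint : ∀ ψ, Tst Ω ψ → ∀ t, 0 ≤ t →
    IntervalIntegrable (fun s => ∫ x, gf a α (v s x) * ψ x ∂(mu Ω)) volume 0 t
  eq : ∀ ψ, Tst Ω ψ → ∀ t, 0 ≤ t →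
    ∫ x, v t x * ψ x ∂(mu Ω) = ∫ x, v 0 x * ψ x ∂(mu Ω) -
      ∫ s in (0:ℝ)..t, (∫ x, ⟪G s x, gradient ψ x⟫_ℝ ∂(mu Ω) +
        ∫ x, gf a α (v s x) * ψ x ∂(mu Ω))

end

end Pool.Agent.BEL
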