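import Pool.Agent.BEL.Defs
import Pool.Agent.BEL.DefsG

/-!
# Squad BEL (MP_be01ff_an): existence part (helper69)

The free group, the flows of the truncated equations, their limit for `l → ∞`.

Notation of the proofs: `U = W t (Z t)`, `v = P2 U`, `⟪b j, ·⟫` = the `j`-th coordinate. Available:
`Pool.Agent.BEL.H69.pic` (file `Pool/Agent/Helper69_BEL/Pic.lean`): a differential equation
`Z' = f t Z` in a real Banach space with `f t` Lipschitz (one constant), `t ↦ f t x` continuous has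
a solution on `ℝ` for every initial value at `t = 0`.
-/

namespace Pool.Agent.BEL

open MeasureTheory Filter Topology Set
open scoped InnerProductSpace ENNReal NNReal

noncomputable section

/-! ## Hilbert space -/

/-- GRP: existence of the free group.

Proof.  For a bounded family `m : κ → ℝ`, `|m j| ≤ 1`, the diagonal operator `D m` with
`⟪b j, D m x⟫ = m j ⟪b j, x⟫` (through `b.repr`: a square summable family times a bounded one is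
square summable; `LinearMap.mkContinuous` with constant `1`).  `C = D (cos (om j t))`,
`S = D (sin (om j t))`, `W t (p, v) = (C p + S v, - S p + C v)` (through
`WithLp.prodContinuousLinearEquiv`, as in `PK`). -/
def GrpStmt : Prop :=
  ∀ (H : Type) [NormedAddCommGroup H] [InnerProductSpace ℝ H] [CompleteSpace H] (κ : Type)
    (b : HilbertBasis κ ℝ H) (om : κ → ℝ), ∃ W : ℝ → KK H →L[ℝ] KK H, Grp b om W

/-- RIN: existence of `Λ⁻¹`.  Proof.  The diagonal operator with the bounded family `1 / om j`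
(`|1 / om j| ≤ 1 / w0`), see GRP. -/
def RinStmt : Prop :=
  ∀ (H : Type) [NormedAddCommGroup H] [InnerProductSpace ℝ H] [CompleteSpace H] (κ : Type)
    (b : HilbertBasis κ ℝ H) (om : κ → ℝ), (∃ w0 > 0, ∀ j, w0 ≤ om j) →
    ∃ R : H →L[ℝ] H, IsR b om R

/-- GRQ: properties of the free group.

Proof.  An element of `KK H` is determined by the coordinates `⟪b j, P1 z⟫`, `⟪b j, P2 z⟫`, and
`‖z‖² = ∑ (⟪b j, P1 z⟫² + ⟪b j, P2 z⟫²)`, `⟪z, w⟫ = ∑ (⟪b j, P1 z⟫ ⟪b j, P1 w⟫ + ..)` (`b.hasSum_inner_mul_inner`,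
`WithLp` inner product); addition theorems of `cos`, `sin`.  Continuity of `t ↦ W t z`: the set of
the `z` for which it holds is a closed subspace (uniform limits, `‖W t‖ ≤ 1`), it contains the `z`
with finitely many nonzero coordinates (there `W t z` is a finite sum
`∑ ((cos p + sin v) b j, (- sin p + cos v) b j)`), these are dense. -/
def GrqStmt : Prop :=
  ∀ (H : Type) [NormedAddCommGroup H] [InnerProductSpace ℝ H] [CompleteSpace H] (κ : Type)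
    (b : HilbertBasis κ ℝ H) (om : κ → ℝ) (W : ℝ → KK H →L[ℝ] KK H), Grp b om W →
    (∀ z : KK H, W 0 z = z) ∧ (∀ (s t : ℝ) (z : KK H), W (s + t) z = W s (W t z)) ∧
    (∀ (t : ℝ) (z : KK H), ‖W t z‖ = ‖z‖) ∧
    (∀ (t : ℝ) (z w : KK H), ⟪W t z, w⟫_ℝ = ⟪z, W (-t) w⟫_ℝ) ∧
    (∀ z : KK H, Continuous fun t => W t z) ∧
    (∀ Z : ℝ → KK H, Continuous Z → Continuous fun t => W t (Z t)) ∧
    (∀ (h : H) (z : KK H), ⟪inj h, z⟫_ℝ = ⟪h, P2 z⟫_ℝ) ∧ ∀ h : H, ‖inj h‖ = ‖h‖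

/-- ENG: the energy identity for a curve.

Proof.  The function `t ↦ ‖D t‖²` has the derivative
`2 ⟪D t, - W (-t) (0, h t)⟫ = - 2 ⟪W t (D t), (0, h t)⟫ = - 2 ⟪P2 (W t (D t)), h t⟫` (GRQ), which is
continuous; fundamental theorem of calculus. -/
def EngStmt : Prop :=
  ∀ (H : Type) [NormedAddCommGroup H] [InnerProductSpace ℝ H] [CompleteSpace H] (κ : Type)
    (b : HilbertBasis κ ℝ H) (om : κ → ℝ) (W : ℝ → KK H →L[ℝ] KK H) (D : ℝ → KK H) (h : ℝ → H),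
    Grp b om W → Continuous h → (∀ t, HasDerivAt D (-(W (-t) (inj (h t)))) t) →
    (Continuous fun t => P2 (W t (D t))) ∧
    ∀ s t, ‖D t‖ ^ 2 - ‖D s‖ ^ 2 = -2 * ∫ r in s..t, ⟪h r, P2 (W r (D r))⟫_ℝ

/-- FLE: existence of the flow for a Lipschitz nonlinearity.

Proof.  `pic` with `f t x = - W (-t) (inj (F (P2 (W t x))))`: Lipschitz with the constant `K`
(`‖W t‖ ≤ 1`, `‖P2‖ ≤ 1`), continuous in `t` for fixed `x` (GRQ). -/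
def FleStmt : Prop :=
  ∀ (H : Type) [NormedAddCommGroup H] [InnerProductSpace ℝ H] [CompleteSpace H] (κ : Type)
    (b : HilbertBasis κ ℝ H) (om : κ → ℝ) (W : ℝ → KK H →L[ℝ] KK H) (F : H → H) (K : ℝ≥0)
    (V : KK H), Grp b om W → LipschitzWith K F → ∃ Z : ℝ → KK H, IsFl W F V Z

/-- FLP: contraction, decay of the norm, energy identity.

Proof.  ENG for `D = Z` (`h t = F (P2 (W t (Z t)))`) and for `D = Z - Z'`
(`h = F (P2 (W t (Z t))) - F (P2 (W t (Z' t)))`); the integrals are nonnegative for `s ≤ t`. -/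
def FlpStmt : Prop :=
  ∀ (H : Type) [NormedAddCommGroup H] [InnerProductSpace ℝ H] [CompleteSpace H] (κ : Type)
    (b : HilbertBasis κ ℝ H) (om : κ → ℝ) (W : ℝ → KK H →L[ℝ] KK H) (F : H → H) (K : ℝ≥0),
    Grp b om W → LipschitzWith K F → (∀ x y, 0 ≤ ⟪F x - F y, x - y⟫_ℝ) → F 0 = 0 →
    ∀ (V V' : KK H) (Z Z' : ℝ → KK H), IsFl W F V Z → IsFl W F V' Z' →
    (Continuous fun t => P2 (W t (Z t))) ∧ (Continuous fun t => F (P2 (W t (Z t)))) ∧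
    (∀ s t, s ≤ t → ‖Z t‖ ≤ ‖Z s‖) ∧ (∀ s t, s ≤ t → ‖Z t - Z' t‖ ≤ ‖Z s - Z' s‖) ∧
    ∀ s t, ‖Z s‖ ^ 2 - ‖Z t‖ ^ 2 = 2 * ∫ r in s..t, ⟪F (P2 (W r (Z r))), P2 (W r (Z r))⟫_ℝ

/-- COO: the equations of the coordinates.

Proof.  `⟪b j, P1 (W t (Z t))⟫ = cos ⟪b j, P1 Z⟫ + sin ⟪b j, P2 Z⟫` (`Grp.c1`), product rule,
`⟪b j, P1 Z'⟫ = sin (om j t) ⟪b j, F⟫`, `⟪b j, P2 Z'⟫ = - cos (om j t) ⟪b j, F⟫` (`Grp` at `-t`). -/
def CooStmt : Prop :=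
  ∀ (H : Type) [NormedAddCommGroup H] [InnerProductSpace ℝ H] [CompleteSpace H] (κ : Type)
    (b : HilbertBasis κ ℝ H) (om : κ → ℝ) (W : ℝ → KK H →L[ℝ] KK H) (F : H → H) (V : KK H)
    (Z : ℝ → KK H) (j : κ) (t : ℝ), Grp b om W → IsFl W F V Z →
    HasDerivAt (fun t => ⟪b j, P1 (W t (Z t))⟫_ℝ) (om j * ⟪b j, P2 (W t (Z t))⟫_ℝ) t ∧
    HasDerivAt (fun t => ⟪b j, P2 (W t (Z t))⟫_ℝ)
      (-(om j) * ⟪b j, P1 (W t (Z t))⟫_ℝ - ⟪b j, F (P2 (W t (Z t)))⟫_ℝ) t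

/-- REG: regularity of the flow for data with finitely many modes.

Proof.  `U t = W t (Z t)`.  (1) For `h ≥ 0` the curve `Z_h t = W h (Z (t + h))` is the flow with the initial
datum `U h` (`W (-t) (U (t + h)) = W h (Z (t + h))`, derivative `- W h W (-(t+h)) inj F(..)
= - W (-t) inj F (P2 (W t (Z_h t)))`).  So `‖U (t + h) - U t‖ = ‖Z_h t - Z t‖ ≤ ‖U h - V‖` for `t ≥ 0` (FLP).
(2) `‖U h - V‖ = ‖Z h - W (-h) V‖ ≤ ‖Z h - V‖ + ‖V - W (-h) V‖`; `‖V - W (-h) V‖ ≤ h a0` with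
`a0² = ∑_(j ∈ J) om j² (⟪b j, P1 V⟫² + ⟪b j, P2 V⟫²)` (coordinates: `(1 - cos)² + sin² ≤ (om j h)²`);
`limsup ‖Z h - V‖ / h ≤ ‖F (P2 V)‖` (`Z` is differentiable at `0` with the derivative
`- inj (F (P2 V))`).  (3) For a finite set `I`: `∑_(j ∈ I) (⟪b j, P1 (U (t + h) - U t)⟫ / h)² ≤
(‖U h - V‖ / h)²`, and for `h → 0` the left side tends to `∑_(j ∈ I) om j² ⟪b j, P2 (U t)⟫²` (COO).  So
`∑_(j ∈ I) om j² ⟪b j, P2 (U t)⟫² ≤ M²` for all finite `I`, the family `om j ⟪b j, P2 (U t)⟫` is square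
summable, `w = ∑ om j ⟪b j, P2 (U t)⟫ b j` (`b.repr.symm`), `‖w‖ ≤ M`, `R w = P2 (U t)`. -/
def RegStmt : Prop :=
  ∀ (H : Type) [NormedAddCommGroup H] [InnerProductSpace ℝ H] [CompleteSpace H] (κ : Type)
    (b : HilbertBasis κ ℝ H) (om : κ → ℝ) (W : ℝ → KK H →L[ℝ] KK H) (R : H →L[ℝ] H) (F : H → H)
    (K : ℝ≥0) (V : KK H) (J : Finset κ) (Z : ℝ → KK H),
    Grp b om W → IsR b om R → (∀ j, 0 < om j) → LipschitzWith K F →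
    (∀ x y, 0 ≤ ⟪F x - F y, x - y⟫_ℝ) → F 0 = 0 →
    (∀ j, j ∉ J → ⟪b j, P1 V⟫_ℝ = 0 ∧ ⟪b j, P2 V⟫_ℝ = 0) → IsFl W F V Z →
    ∀ t, 0 ≤ t → ∃ w : H, P2 (W t (Z t)) = R w ∧
      ‖w‖ ≤ Real.sqrt (∑ j ∈ J, om j ^ 2 * (⟪b j, P1 V⟫_ℝ ^ 2 + ⟪b j, P2 V⟫_ℝ ^ 2)) + ‖F (P2 V)‖

/-- CVG: convergence of flows.

Proof.  For `V` in a dense set `Q` the sequence `t ↦ W t (Z n V t)` is uniformly Cauchy on
`[0, T]` for every `T`; by the contraction property (`‖W t (Z n V t) - W t (Z n V' t)‖ ≤ ‖V - V'‖`,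
FLP) this holds for all `V`; completeness (`UniformCauchySeqOn` and pointwise limits:
`UniformCauchySeqOn.tendstoUniformlyOn_of_tendsto`). -/
def CvgStmt : Prop :=
  ∀ (H : Type) [NormedAddCommGroup H] [InnerProductSpace ℝ H] [CompleteSpace H] (κ : Type)
    (b : HilbertBasis κ ℝ H) (om : κ → ℝ) (W : ℝ → KK H →L[ℝ] KK H) (F : ℕ → H → H)
    (Q : Set (KK H)), Grp b om W → (∀ n, ∃ K : ℝ≥0, LipschitzWith K (F n)) →
    (∀ n x y, 0 ≤ ⟪F n x - F n y, x - y⟫_ℝ) → (∀ n, F n 0 = 0) → Dense Q →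
    (∀ V ∈ Q, ∀ Z : ℕ → ℝ → KK H, (∀ n, IsFl W (F n) V (Z n)) → ∀ T, ∀ ε > 0, ∃ N, ∀ n ≥ N,
      ∀ m ≥ n, ∀ t ∈ Icc (0 : ℝ) T, ‖Z n t - Z m t‖ ≤ ε) →
    ∃ (Z : ℕ → KK H → ℝ → KK H) (S : ℝ → KK H → KK H), IsLim W F Z S

/-- PRS: properties of the limit.

Proof.  Pass to the limit in FLP; the continuity in `t` on `[0, T]` is preserved by uniform
limits, so `S · V` is continuous on `Ici 0`; `S 0 V = W 0 (Z n V 0) = V`. -/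
def PrsStmt : Prop :=
  ∀ (H : Type) [NormedAddCommGroup H] [InnerProductSpace ℝ H] [CompleteSpace H] (κ : Type)
    (b : HilbertBasis κ ℝ H) (om : κ → ℝ) (W : ℝ → KK H →L[ℝ] KK H) (F : ℕ → H → H)
    (Z : ℕ → KK H → ℝ → KK H) (S : ℝ → KK H → KK H), Grp b om W →
    (∀ n, ∃ K : ℝ≥0, LipschitzWith K (F n)) → (∀ n x y, 0 ≤ ⟪F n x - F n y, x - y⟫_ℝ) →
    (∀ n, F n 0 = 0) → IsLim W F Z S →
    (∀ V, S 0 V = V) ∧ (∀ V, ContinuousOn (fun t => S t V) (Ici 0)) ∧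
    (∀ V s t, 0 ≤ s → s ≤ t → ‖S t V‖ ≤ ‖S s V‖) ∧
    ∀ V V' t, 0 ≤ t → ‖S t V - S t V'‖ ≤ ‖V - V'‖

/-! ## The truncated nonlinearity -/

/-- GLP: properties of the truncation.

Proof.  `mm al l` is continuous (`al > 0`), so `gl' = ql ≥ 0`; `mm al l s ≤ mm al l' s ≤ |s|^al` for
`0 ≤ l ≤ l'`; all the functions are odd.  The last inequality, for `x > 0` (otherwise change the
sign of `x, y`): `(gl l x - gl l' y)(x - y) = (gl l' x - gl l' y)(x - y) + (gl l x - gl l' x)(x - y)`,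
`0 ≤ gl l' x - gl l x ≤ gf x`, and it is `0` for `|x| ≤ l`; for `|x| > l`:
`|gf x| |x - y| ≤ a |x|^(al+1) (|x| + |y|) ≤ a l^(al+2-p) |x|^(p-1) (|x| + |y|)` and
`|x|^(p-1) |y| ≤ |x|^p + |y|^p`. -/
def GlpStmt : Prop :=
  ∀ (a al : ℝ), 0 < a → 0 < al → (∀ l s, 0 ≤ l → HasDerivAt (gl a al l) (ql a al l s) s) ∧
    (∀ l, 0 ≤ l → LipschitzWith (Real.toNNReal (a * (al + 1) * l ^ al)) (gl a al l)) ∧
    (∀ l, 0 ≤ l → Monotone (gl a al l)) ∧ (∀ l, gl a al l 0 = 0) ∧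
    (∀ l s, 0 ≤ l → 0 ≤ gl a al l s * s) ∧
    (∀ l l' s, 0 ≤ l → l ≤ l' → gl a al l s * s ≤ gl a al l' s * s) ∧
    (∀ l s, 0 ≤ l → |gl a al l s| ≤ |gf a al s|) ∧
    (∀ l s, |s| ≤ l → gl a al l s = gf a al s) ∧
    ∀ l l' p x y, 0 < l → l ≤ l' → al + 2 < p →
      -(3 * a * l ^ (al + 2 - p) * (|x| ^ p + |y| ^ p)) ≤
        (gl a al l x - gl a al l' y) * (x - y)

/-- NEM: the Nemytskii operators.

Proof.  `v` is in `L²`, `g ∘ v` is measurable and `|g (v x)| ≤ K |v x|`, so it is in `L²`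
(`LipschitzWith.comp_memLp`); pointwise estimates of the integrands
(`L2.inner_def`, `norm` of `Lp` by `Lp.norm_le_mul_norm_of_ae_le_mul`). -/
def NemStmt : Prop :=
  ∀ (X : Type) [MeasurableSpace X] (μ : Measure X) (g : ℝ → ℝ) (K : ℝ≥0),
    LipschitzWith K g → g 0 = 0 →
    (∀ v : Lp ℝ 2 μ, ∀ᵐ x ∂μ, nem μ g v x = g (v x)) ∧ LipschitzWith K (nem μ g) ∧
    nem μ g 0 = 0 ∧
    (∀ v w : Lp ℝ 2 μ, ⟪nem μ g v, w⟫_ℝ = ∫ x, g (v x) * w x ∂μ) ∧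
    (∀ v w : Lp ℝ 2 μ, Integrable (fun x => g (v x) * w x) μ) ∧
    (Monotone g → ∀ v w : Lp ℝ 2 μ, 0 ≤ ⟪nem μ g v - nem μ g w, v - w⟫_ℝ)

/-- NEB: the size of `nem (gl l) v` for bounded `v`, uniformly in `l`.

Proof.  NEM, GLP: `|gl l (v x)| ≤ |gf (v x)| ≤ a B^al |v x|`. -/
def NebStmt : Prop :=
  ∀ (X : Type) [MeasurableSpace X] (μ : Measure X) (a al B l : ℝ) (v : Lp ℝ 2 μ), 0 < a → 0 < al →
    0 ≤ B → 0 ≤ l → (∀ᵐ x ∂μ, |v x| ≤ B) → ‖nem μ (gl a al l) v‖ ≤ a * B ^ al * ‖v‖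

/-- CAM: almost monotonicity of two truncations.

Proof.  Integrate the last inequality of GLP (NEM). -/
def CamStmt : Prop :=
  ∀ (X : Type) [MeasurableSpace X] (μ : Measure X) (a al p l l' : ℝ) (v w : Lp ℝ 2 μ), 0 < a →
    0 < al → 0 < l → l ≤ l' → al + 2 < p → MemLp v (ENNReal.ofReal p) μ →
    MemLp w (ENNReal.ofReal p) μ →
    -(3 * a * l ^ (al + 2 - p) * (∫ x, |v x| ^ p ∂μ + ∫ x, |w x| ^ p ∂μ)) ≤
      ⟪nem μ (gl a al l) v - nem μ (gl a al l') w, v - w⟫_ℝ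

/-- LIM: existence of the limit.

Proof.  CVG with `F n = nem (gl n)` (NEM, GLP) and `Q` = the `V` with finitely many nonzero
coordinates (dense).  For `V ∈ Q`: `P2 V` is a finite combination of the `b j`, bounded (`j1`, `j2`),
so by REG and NEB `P2 (W t (Z n t)) = R w`, `‖w‖ ≤ M` for all `n` and `t ≥ 0`, and by `emb` the
integrals `∫ |P2 (W t (Z n t))|^p` are at most `(C M)^p`.  ENG for `D = Z n - Z m`
(`h = F n (v n) - F m (v m)`) and CAM: `‖Z n t - Z m t‖² ≤ 2 T 3 a n^(al+2-p) 2 (C M)^p → 0`. -/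
def LimStmt : Prop :=
  ∀ (X : Type) [MeasurableSpace X] (μ : Measure X) [IsFiniteMeasure μ] (a al : ℝ) (κ : Type)
    (b : HilbertBasis κ ℝ (Lp ℝ 2 μ)) (om : κ → ℝ) (R : Lp ℝ 2 μ →L[ℝ] Lp ℝ 2 μ)
    (W : ℝ → KK (Lp ℝ 2 μ) →L[ℝ] KK (Lp ℝ 2 μ)) (Js : ℕ → Finset κ), Cor μ a al b om R W Js →
    ∃ (Z : ℕ → KK (Lp ℝ 2 μ) → ℝ → KK (Lp ℝ 2 μ)) (S : ℝ → KK (Lp ℝ 2 μ) → KK (Lp ℝ 2 μ)),
      IsLim W (fun n => nem μ (gl a al n)) Z S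

/-- ENI: the energy inequality of the limit.

Proof.  `v n r = P2 (W r (Z n V r))`, `v r = P2 (S r V)`.  For `k ≤ n` (FLP, GLP):
`2 ∫_s^t ⟪nem (gl k) (v n), v n⟫ ≤ 2 ∫_s^t ⟪nem (gl n) (v n), v n⟫ = ‖Z n V s‖² - ‖Z n V t‖²`; `n → ∞` (uniform
convergence on `[s, t]`, `nem (gl k)` Lipschitz): `2 ∫_s^t ⟪nem (gl k) v, v⟫ ≤ ‖S s V‖² - ‖S t V‖²`.
The integrand is nonnegative and continuous in `r`; as a lintegral `∫⁻ x, ofReal (gl k (v x) * v x)`;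
it increases with `k` to `∫⁻ x, ofReal (a |v x|^(al+2))`: monotone convergence in `x` and in `r`. -/
def EniStmt : Prop :=
  ∀ (X : Type) [MeasurableSpace X] (μ : Measure X) [IsFiniteMeasure μ] (a al : ℝ) (κ : Type)
    (b : HilbertBasis κ ℝ (Lp ℝ 2 μ)) (om : κ → ℝ)
    (W : ℝ → KK (Lp ℝ 2 μ) →L[ℝ] KK (Lp ℝ 2 μ)) (Z : ℕ → KK (Lp ℝ 2 μ) → ℝ → KK (Lp ℝ 2 μ))
    (S : ℝ → KK (Lp ℝ 2 μ) → KK (Lp ℝ 2 μ)), 0 < a → 0 < al → Grp b om W →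
    IsLim W (fun n => nem μ (gl a al n)) Z S → ∀ (V : KK (Lp ℝ 2 μ)) (s t : ℝ), 0 ≤ s → s ≤ t →
    ENNReal.ofReal (‖S t V‖ ^ 2) + ENNReal.ofReal (2 * a) *
      ∫⁻ r in Icc s t, ∫⁻ x, ENNReal.ofReal (|P2 (S r V) x| ^ (al + 2)) ∂μ ≤
        ENNReal.ofReal (‖S s V‖ ^ 2)

/-- GCV: convergence of the nonlinear term, tested with a bounded function.

Proof.  `v n r = P2 (W r (Z n V r))`, `v r = P2 (S r V)`, `|e| ≤ B` a.e., `Φ r = ∫ gf (v r) e`,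
`Φ_k r = ∫ gl k (v r) e = ⟪nem (gl k) (v r), e⟫` continuous in `r`.  For `k ≥ 1`, `|gf x - gl k x| ≤
|gf x| 1_(|x| > k) ≤ a |x|^(al+2) / k`.  So for the (almost all) `r` with `∫ |v r|^(al+2) < ∞` (ENI)
`Φ_k r → Φ r`, `|Φ r| ≤ B a (μ X + ∫ |v r|^(al+2))`: `Φ` is a.e. measurable and integrable on `[0, t]`.
`|∫_0^t (Φ - Φ_k)| ≤ (B a / k) ∫∫ |v|^(al+2)`, `|∫_0^t (⟪nem (gl n) (v n), e⟫ - ⟪nem (gl k) (v n), e⟫)| ≤
(B / k) ∫_0^t ⟪nem (gl n) (v n), v n⟫ ≤ B ‖V‖² / (2 k)` for `n ≥ k`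
(`|gl n x - gl k x| ≤ gl n x * x / k`), and `∫_0^t ⟪nem (gl k) (v n), e⟫ → ∫_0^t Φ_k` for `n → ∞`. -/
def GcvStmt : Prop :=
  ∀ (X : Type) [MeasurableSpace X] (μ : Measure X) [IsFiniteMeasure μ] (a al : ℝ) (κ : Type)
    (b : HilbertBasis κ ℝ (Lp ℝ 2 μ)) (om : κ → ℝ)
    (W : ℝ → KK (Lp ℝ 2 μ) →L[ℝ] KK (Lp ℝ 2 μ)) (Z : ℕ → KK (Lp ℝ 2 μ) → ℝ → KK (Lp ℝ 2 μ))
    (S : ℝ → KK (Lp ℝ 2 μ) → KK (Lp ℝ 2 μ)), 0 < a → 0 < al → Grp b om W →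
    IsLim W (fun n => nem μ (gl a al n)) Z S → ∀ (V : KK (Lp ℝ 2 μ)) (e : Lp ℝ 2 μ) (B t : ℝ),
    0 ≤ t → (∀ᵐ x ∂μ, |e x| ≤ B) →
    IntervalIntegrable (fun r => ∫ x, gf a al (P2 (S r V) x) * e x ∂μ) volume 0 t ∧
    Tendsto (fun n : ℕ => ∫ r in (0 : ℝ)..t,
      ⟪nem μ (gl a al n) (P2 (W r (Z n V r))), e⟫_ℝ) atTop
      (𝓝 (∫ r in (0 : ℝ)..t, ∫ x, gf a al (P2 (S r V) x) * e x ∂μ))

/-- SOL: the limit is a solution in the sense of `CoreSol`.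

Proof.  `c1, c2`: PRS.  `en`: ENI (`‖z‖² = ‖P1 z‖² + ‖P2 z‖²`).  `gint`: GCV with `e = b k` (bounded by
hypothesis).  `m1, m2`: integrate COO for `Z n V` from `0` to `t`, `n → ∞` (uniform convergence,
GCV). -/
def SolStmt : Prop :=
  ∀ (X : Type) [MeasurableSpace X] (μ : Measure X) [IsFiniteMeasure μ] (a al : ℝ)
    (b : HilbertBasis ℕ ℝ (Lp ℝ 2 μ)) (om : ℕ → ℝ)
    (W : ℝ → KK (Lp ℝ 2 μ) →L[ℝ] KK (Lp ℝ 2 μ)) (Z : ℕ → KK (Lp ℝ 2 μ) → ℝ → KK (Lp ℝ 2 μ))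
    (S : ℝ → KK (Lp ℝ 2 μ) → KK (Lp ℝ 2 μ)), 0 < a → 0 < al → Grp b om W →
    (∀ k, ∃ B, ∀ᵐ x ∂μ, |b k x| ≤ B) →
    IsLim W (fun n => nem μ (gl a al n)) Z S → ∀ V : KK (Lp ℝ 2 μ),
    CoreSol μ a al b om (fun t => P1 (S t V)) (fun t => P2 (S t V))

end

end Pool.Agent.BEL
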