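import Pool.Agent.BEL.DefsH
import Pool.Agent.BEL.StmtsE

/-!
# Squad BEL (MP_be01ff_an), rows of the core, part 1

Every row is a `Prop`.  Deliver a theorem (rows used as hypotheses) : XxxStmt.
Everything is done for the honest flows with the truncated nonlinearity `gl a al l`, with
constants which do not depend on `l`.
-/

namespace Pool.Agent.BEL

open MeasureTheory Filter Topology Set
open scoped InnerProductSpace ENNReal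

noncomputable section

/-! ## A. Hilbert space -/

/-- GPK. `PK b J` and the free group, coordinate by coordinate (`Grp`; an element of `KK H` is
determined by the coordinates `⟪b j, P1 z⟫`, `⟪b j, P2 z⟫`). -/
def GpkStmt : Prop := ∀ (H : Type) [NormedAddCommGroup H] [InnerProductSpace ℝ H]
  [CompleteSpace H] (κ : Type) (b : HilbertBasis κ ℝ H) (om : κ → ℝ)
  (W : ℝ → KK H →L[ℝ] KK H), Grp b om W →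
  (∀ (J : Finset κ) t z, PK b J (W t z) = W t (PK b J z)) ∧
  (∀ (J : Finset κ) z, P2 (PK b J z) = PJ b J (P2 z)) ∧
  (∀ (J : Finset κ) v, PK b J (inj v) = inj (PJ b J v)) ∧
  (∀ (J : Finset κ) (z w : KK H), ⟪PK b J z, w⟫_ℝ = ⟪z, PK b J w⟫_ℝ) ∧
  (∀ (J : Finset κ) (z : KK H), PK b J (PK b J z) = PK b J z) ∧
  (∀ (J : Finset κ) (v w : H), ⟪PJ b J v, w⟫_ℝ = ⟪v, PJ b J w⟫_ℝ) ∧
  (∀ (J : Finset κ) (v : H), PJ b J (PJ b J v) = PJ b J v) ∧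
  (∀ (J : Finset κ) (v : H), ‖v - PJ b J v‖ ≤ ‖v‖ ∧ ‖PJ b J v‖ ≤ ‖v‖) ∧
  (∀ (J : Finset κ) (v : H), ‖v - PJ b J v‖ ^ 2 = ‖v‖ ^ 2 - ∑ j ∈ J, ⟪b j, v⟫_ℝ ^ 2) ∧
  (∀ (z : KK H), ‖P2 z‖ ≤ ‖z‖ ∧ ‖P1 z‖ ≤ ‖z‖ ∧ ‖z‖ ^ 2 = ‖P1 z‖ ^ 2 + ‖P2 z‖ ^ 2)

/-! ## B. The truncated nonlinearity -/

/-- CGL. Elementary properties of `mm, ql, gl, cf` (`l ≥ 0`).  `ql` is continuous, so
`gl' = ql` (fundamental theorem of calculus); `0 ≤ ql ≤ a (al+1) l^al`; for `|r| ≤ |s|`,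
`mm r ≤ mm s`, so `|gl s| ≤ ql s |s|`.  `a mm(s) s² ≤ gl(s) s`: for `0 ≤ s ≤ l` equality
(`gl s = a s^(al+1)`), for `s > l`: `gl s = a l^(al+1) + a (al+1) l^al (s - l) ≥ a l^al s`;
`gl` is odd.  `mm` is the power of the Lipschitz function `min (|s|, l)`. -/
def CglStmt : Prop := ∀ a al l : ℝ, 0 < a → 0 < al → 0 ≤ l →
  Continuous (mm al l) ∧ Continuous (ql a al l) ∧ Continuous (gl a al l) ∧
  (∀ s, HasDerivAt (gl a al l) (ql a al l s) s) ∧ gl a al l 0 = 0 ∧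
  (∀ s, 0 ≤ mm al l s) ∧ (∀ s, mm al l s ≤ l ^ al) ∧ (∀ s, 0 ≤ ql a al l s) ∧
  Monotone (gl a al l) ∧
  (∀ s t, |gl a al l s - gl a al l t| ≤ a * (al + 1) * l ^ al * |s - t|) ∧
  (∀ s, a * mm al l s * s ^ 2 ≤ gl a al l s * s) ∧
  (∀ s, |gl a al l s| ≤ a * (al + 1) * mm al l s * |s|) ∧
  (∀ s, mm (al + 2) l s ≤ mm al l s * s ^ 2) ∧
  (∀ s, |s| ≤ l → gl a al l s = gf a al s) ∧
  (∀ M, 0 < M → Continuous (cf a al M) ∧ (∀ s, 0 ≤ cf a al M s) ∧ (∀ s, cf a al M s ≤ M) ∧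
    ∀ s, M ≤ a * (al + 1) * l ^ al → min (ql a al l s) M = cf a al M s)

/-- COE. Coercivity of `gl`.  By symmetry (`gl` odd) `d > 0`.  The interval `[x, x + d]` has a
subinterval of length `d/4`, one of the two ends, on which `|r| ≥ max (|x|, d) / 4`: if `x ≥ 0`
or `- d/2 < x < 0` the right quarter, if `x ≤ - d/2` the left quarter (check the cases
`x + d ≤ 0` and `x + d > 0`).  So `gl (x + d) - gl x ≥ (d/4) a (al+1) min (max(|x|, d)/4, l)^al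
≥ c0 (mm x + mm d) d`, `c0 = a (al+1) 4^(-al) / 8` (`min (t/4, l) ≥ min (t, l)/4`). -/
def CoeStmt : Prop := ∀ a al : ℝ, 0 < a → 0 < al → ∃ c0 : ℝ, 0 < c0 ∧ ∀ l x d : ℝ, 0 < l →
  c0 * (mm al l x + mm al l d) * d ^ 2 ≤ (gl a al l (x + d) - gl a al l x) * d

/-- PWI. The pointwise inequality, uniform in `l`. Write `g = gl`, `q = ql`,
`m = mm al l`.  LHS `= -(g(v+y+d) - g(v+y)) d - (g(v+y) - g v - q(v) y) d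
- (q(v) - M)^+ y d - (min (q v, M) - w) y d`.
(0) The first term is `≤ - c0 (m(v+y) + m(d)) d²` (COE).  (4) The last one is
`≤ (1/(4 ep)) (..)² y² + ep d²`.
(1) Case `|v| ≤ 2 |y|`: `|g(v+y) - g v - q(v) y| ≤ C m(y) |y|` (as `m(3y) ≤ 3^al m(y)`) and
`(q(v) - M)^+ |y| ≤ C m(y) |y|`.  Then `C m(y) |y| |d| ≤ (c0/4) m(d) d² + C' m(y) y²`
(if `|d| ≥ K |y|`, `K = 4C/c0 + 1`: `m(y) |y| |d| ≤ m(d) d²/K`; otherwise `≤ K m(y) y²`) and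
`m(y) y² ≤ |y|^(al+2)`.
(2) Case `|v| > 2 |y|`: `|v|/2 ≤ |v + θ y| ≤ 3|v|/2`, so `m(v+y) ≥ 2^(-al) m(v)`, and
`|q(v+θy) - q(v)| ≤ C m(v) |y|/|v|` (the derivative of `s ↦ min (s, l)^al` is `al s^(al-1)` for
`s < l`, `0` for `s > l`), so the second term is `≤ C m(v) (y²/|v|) |d| ≤
(c0/4) 2^(-al) m(v) d² + C' m(v) y⁴/v²`.  If `al ≤ 2`: `m(v)/v² ≤ |v|^(al-2) ≤ (2|y|)^(al-2)`,
so `m(v) y⁴/v² ≤ C |y|^(al+2)`.  If `al > 2`: `m(v)/v² ≤ mm (al-2) l v`.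
The third term is `≤ (q - M)^+ |y| |d| ≤ τ (q-M)^+ d² + (1/(4τ)) (q - M)^+ y²` and
`(q-M)^+ ≤ q(v) = C m(v)`: choose `τ` small.
(The version without truncation, `l = ∞`, is proved: `Pool/Agent/Helper61_BEL/Abs.lean`.) -/
def PwiStmt : Prop := ∀ a al : ℝ, 0 < a → 0 < al → ∃ C : ℝ, 0 < C ∧
  ∀ l M w v y d ep : ℝ, 0 < l → 0 ≤ M → 0 ≤ w → w ≤ M → 0 < ep →
  -((gl a al l (v + y + d) - gl a al l v) * d) + w * y * d ≤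
    C * (|y| ^ (al + 2) + (if 2 < al then mm (al - 2) l v * y ^ 4 else 0) +
      max (ql a al l v - M) 0 * y ^ 2) +
    (1 / ep) * ((min (ql a al l v) M - w) ^ 2 * y ^ 2) + ep * d ^ 2

/-- MLP. Multiplication operators on `L²`. -/
def MlpStmt : Prop := ∀ (X : Type) [MeasurableSpace X] (μ : Measure X) [IsFiniteMeasure μ]
  (f : X → ℝ) (M : ℝ), Measurable f → (∀ x, |f x| ≤ M) →
  (∀ v : Lp ℝ 2 μ, ml μ f v =ᵐ[μ] fun x => f x * v x) ∧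
  (∀ v : Lp ℝ 2 μ, ‖ml μ f v‖ ≤ M * ‖v‖) ∧
  (∀ v w : Lp ℝ 2 μ, ml μ f (v + w) = ml μ f v + ml μ f w) ∧
  (∀ (c : ℝ) (v : Lp ℝ 2 μ), ml μ f (c • v) = c • ml μ f v) ∧
  (∀ v w : Lp ℝ 2 μ, ⟪ml μ f v, w⟫_ℝ = ∫ x, f x * v x * w x ∂μ) ∧
  ∃ T : Lp ℝ 2 μ →L[ℝ] Lp ℝ 2 μ, ∀ v, T v = ml μ f v

/-! ## C. Finite dimensional and probabilistic rows -/

/-- RAD. Moments of a sum of random signs.  By homogeneity `∑ a_i² = 1`; the average of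
`cosh (X)` is `∏ cosh a_i ≤ exp (1/2)` (`cosh a ≤ exp (a²/2)`) and `|X|^p ≤ C_p cosh X`
(`|x|^p ≤ (n)! exp |x|` for `n ≥ p`, `|x| ≥ 1`, and `exp |x| ≤ 2 cosh x`). -/
def RadStmt : Prop := ∀ p : ℝ, 0 < p → ∃ C : ℝ, 0 < C ∧ ∀ (r : ℕ) (a : Fin r → ℝ),
  av (fun ε => |∑ i, sg (ε i) * a i| ^ p) ≤ C * (∑ i, a i ^ 2) ^ (p / 2)

/-- RD2. Second moment in a real inner product space: `av ‖∑ ± x_i‖² = ∑ ‖x_i‖²`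
(orthogonality of the signs). -/
def Rd2Stmt : Prop := ∀ (K : Type) [NormedAddCommGroup K] [InnerProductSpace ℝ K] (r : ℕ)
  (x : Fin r → K), av (fun ε => ‖∑ i, sg (ε i) • x i‖ ^ 2) = ∑ i, ‖x i‖ ^ 2

/-- FUN. Fundamental solution of a linear equation with a continuous, symmetric, nonnegative
coefficient, with Liouville's formula. -/
def FunStmt : Prop := ∀ (E : Type) [NormedAddCommGroup E] [InnerProductSpace ℝ E]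
  [FiniteDimensional ℝ E] (B : ℝ → E →L[ℝ] E), Continuous B →
  (∀ t x y, ⟪B t x, y⟫_ℝ = ⟪x, B t y⟫_ℝ) → (∀ t x, 0 ≤ ⟪B t x, x⟫_ℝ) →
  ∃ Φ : ℝ → E →L[ℝ] E, (∀ x, Φ 0 x = x) ∧
    (∀ x t, HasDerivAt (fun t => Φ t x) (-(B t (Φ t x))) t) ∧
    (∀ t, LinearMap.det (Φ t : E →ₗ[ℝ] E) =
      Real.exp (-(∫ s in (0 : ℝ)..t, LinearMap.trace ℝ E (B s : E →ₗ[ℝ] E)))) ∧
    (∀ x s t, s ≤ t → ‖Φ t x‖ ≤ ‖Φ s x‖)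

/-- GDF (from the landed `Pool.Agent.BEL.H61.lemA`). `Ψ k` = flow from time `0` to time `tm k`,
`T k = Ψ (k+1) Ψ k⁻¹`.  Numbers: `mu ≤ 1/4` by `Prm.m1`, so with `M = 4 / √mu`, `nu ≤ 1`:
`1 + nu + mu M ≤ 2 + 4 √mu ≤ √mu + 4 = √mu (1 + M)`.  `g i = Ψ k⁻¹ f i`, `f` an orthonormal
basis of `F` (`r = finrank F`). -/
def GdfStmt : Prop := ∀ (al : ℝ) (m : ℕ), Prm al m → ∀ (E : Type) [NormedAddCommGroup E]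
  [InnerProductSpace ℝ E] [FiniteDimensional ℝ E] (Ψ : ℕ → E →L[ℝ] E),
  0 < Module.finrank ℝ E → (∀ k, 0 < LinearMap.det (Ψ k : E →ₗ[ℝ] E)) →
  (∀ c k, ‖Ψ (k + 1) c‖ ≤ ‖Ψ k c‖) → ∀ N : ℕ, ∃ bad : Finset ℕ, bad ⊆ Finset.range N ∧
    lgm al m * (bad.card : ℝ) ≤ nup al m * N + 2 / (Module.finrank ℝ E : ℝ) *
      (Real.log (LinearMap.det (Ψ 0 : E →ₗ[ℝ] E)) -
        Real.log (LinearMap.det (Ψ N : E →ₗ[ℝ] E))) ∧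
    ∀ k < N, k ∉ bad → ∃ (r : ℕ) (g : Fin r → E), Module.finrank ℝ E ≤ 2 * r ∧
      (∀ a : Fin r → ℝ, ‖Ψ k (∑ i, a i • g i)‖ ^ 2 = ∑ i, a i ^ 2) ∧
      ∀ j < k, ∀ a : Fin r → ℝ, ‖Ψ j (∑ i, a i • g i)‖ ^ 2 ≤
        Gr al m (k - 1 - j) * ∑ i, a i ^ 2

/-! ## D. Expectations at a fixed time -/

/-- PTB. The variance bound.  For a.e. `x`, `u i x = ∑_(j ∈ J) ⟪b j, u i⟫ b j x` for all `i`
(`PJ b J (u i) = u i`).  Put `ℓ(w) = ∑_(j ∈ J) ⟪b j, w⟫ b j x`, `|ℓ(w)|² ≤ A ‖w‖²`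
(Cauchy-Schwarz and Bessel).  `S = ∑ ℓ(u i)² = ℓ(∑ ℓ(u i) u i) ≤ √A ‖∑ ℓ(u i) u i‖ ≤
√A √(B S)`, so `S ≤ A B`. -/
def PtbStmt : Prop := ∀ (X : Type) [MeasurableSpace X] (μ : Measure X) (κ : Type)
  (b : HilbertBasis κ ℝ (Lp ℝ 2 μ)) (J : Finset κ) (A B : ℝ) (r : ℕ) (u : Fin r → Lp ℝ 2 μ),
  (∀ᵐ x ∂μ, ∑ j ∈ J, (b j x) ^ 2 ≤ A) → 0 ≤ A → 0 ≤ B → (∀ i, PJ b J (u i) = u i) →
  (∀ a : Fin r → ℝ, ‖∑ i, a i • u i‖ ^ 2 ≤ B * ∑ i, a i ^ 2) →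
  ∀ᵐ x ∂μ, ∑ i, (u i x) ^ 2 ≤ A * B

/-- EX1. Moments with a weight: a.e. `(∑ ± u i)(x) = ∑ ± u i x`, RAD and PTB at `x`, integrate
(`y` is bounded, so everything is integrable). -/
def Ex1Stmt : Prop := ∀ p : ℝ, 0 < p → ∃ C : ℝ, 0 < C ∧
  ∀ (X : Type) [MeasurableSpace X] (μ : Measure X) [IsFiniteMeasure μ] (κ : Type)
  (b : HilbertBasis κ ℝ (Lp ℝ 2 μ)) (J : Finset κ) (A B : ℝ) (r : ℕ) (u : Fin r → Lp ℝ 2 μ)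
  (ρ : X → ℝ), (∀ᵐ x ∂μ, ∑ j ∈ J, (b j x) ^ 2 ≤ A) → 0 ≤ A → 0 ≤ B →
  (∀ i, PJ b J (u i) = u i) →
  (∀ a : Fin r → ℝ, ‖∑ i, a i • u i‖ ^ 2 ≤ B * ∑ i, a i ^ 2) →
  (∀ᵐ x ∂μ, 0 ≤ ρ x) → Integrable ρ μ →
  av (fun ε => ∫ x, ρ x * |(∑ i, sg (ε i) • u i : Lp ℝ 2 μ) x| ^ p ∂μ) ≤
    C * (A * B) ^ (p / 2) * ∫ x, ρ x ∂μ

/-- EX2. `∑ ‖T u_i‖² ≤ B ∑_(j ∈ J) ‖T b_j‖²`.  For `z` in `H`: `S = ∑_i ⟪z, u i⟫² =
⟪P_J z, ∑ ⟪z, u i⟫ u i⟫ ≤ ‖P_J z‖ √(B S)`, so `S ≤ B ‖P_J z‖² = B ∑_(j∈J) ⟪b j, z⟫²`.  Apply it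
to `z = T* b_k` and sum over `k` (Parseval twice, sums of nonnegative terms). -/
def Ex2Stmt : Prop := ∀ (H : Type) [NormedAddCommGroup H] [InnerProductSpace ℝ H]
  [CompleteSpace H] (κ : Type) (b : HilbertBasis κ ℝ H) (J : Finset κ) (B : ℝ) (r : ℕ)
  (u : Fin r → H) (T : H →L[ℝ] H), 0 ≤ B → (∀ i, PJ b J (u i) = u i) →
  (∀ a : Fin r → ℝ, ‖∑ i, a i • u i‖ ^ 2 ≤ B * ∑ i, a i ^ 2) →
  ∑ i, ‖T (u i)‖ ^ 2 ≤ B * ∑ j ∈ J, ‖T (b j)‖ ^ 2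

/-- EX3. `av ⟪z, ∑ ± x_i⟫² = ∑ ⟪z, x_i⟫² ≤ B ‖z‖²`. -/
def Ex3Stmt : Prop := ∀ (K : Type) [NormedAddCommGroup K] [InnerProductSpace ℝ K] (B : ℝ)
  (r : ℕ) (x : Fin r → K) (z : K), 0 ≤ B →
  (∀ a : Fin r → ℝ, ‖∑ i, a i • x i‖ ^ 2 ≤ B * ∑ i, a i ^ 2) →
  av (fun ε => ⟪z, ∑ i, sg (ε i) • x i⟫_ℝ ^ 2) ≤ B * ‖z‖ ^ 2

/-- EX4. The leakage: RD2 and EX2 with `T y = f y - P_J (f y)`. -/
def Ex4Stmt : Prop := ∀ (X : Type) [MeasurableSpace X] (μ : Measure X) [IsFiniteMeasure μ]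
  (κ : Type) (b : HilbertBasis κ ℝ (Lp ℝ 2 μ)) (J : Finset κ) (B M : ℝ) (r : ℕ)
  (u : Fin r → Lp ℝ 2 μ) (f : X → ℝ), Measurable f → (∀ x, |f x| ≤ M) → 0 ≤ B →
  (∀ i, PJ b J (u i) = u i) →
  (∀ a : Fin r → ℝ, ‖∑ i, a i • u i‖ ^ 2 ≤ B * ∑ i, a i ^ 2) →
  av (fun ε => lk μ b J f (∑ i, sg (ε i) • u i)) ≤ B * ∑ j ∈ J, lk μ b J f (b j)

/-! ## E. The linearized flow and the perturbation estimate -/

/-- CTJ. Continuity in time of integrals of bounded continuous functions: for `t_n → t` a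
subsequence of `w (t_n)`, `v (t_n)` converges a.e., dominated convergence
(`tendsto_of_subseq_tendsto`). -/
def CtjStmt : Prop := ∀ (X : Type) [MeasurableSpace X] (μ : Measure X) [IsFiniteMeasure μ]
  (F : ℝ → ℝ → ℝ) (C : ℝ), Continuous (fun p : ℝ × ℝ => F p.1 p.2) → (∀ p q, |F p q| ≤ C) →
  ∀ w v : ℝ → Lp ℝ 2 μ, Continuous w → Continuous v →
  Continuous fun t => ∫ x, F (w t x) (v t x) ∂μ

/-- CTI. Continuity in time of the terms of `hh`: `y t = ∑_(j ∈ J) c_j(t) b_j` with `c_j`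
continuous and `|b_j| ≤ √A` a.e., so for `t_n → t` the `y (t_n)` are uniformly bounded and
converge a.e.; subsequence of `w (t_n)`, `v (t_n)` a.e.; all the integrands are bounded
(`0 ≤ mm ≤ l^(al-2)`, `ql ≤ a (al+1) l^al`, `0 ≤ cf ≤ M`).  For `lk`: `ml μ (cfv v_n) y_n →
ml μ (cfv v) y` in `L²` by dominated convergence. -/
def CtiStmt : Prop := ∀ (X : Type) [MeasurableSpace X] (μ : Measure X) [IsFiniteMeasure μ]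
  (κ : Type) (b : HilbertBasis κ ℝ (Lp ℝ 2 μ)) (J : Finset κ) (A a al l M : ℝ),
  0 < a → 0 < al → 0 < l → 0 < M → (∀ᵐ x ∂μ, ∑ j ∈ J, (b j x) ^ 2 ≤ A) →
  ∀ w v y : ℝ → Lp ℝ 2 μ, Continuous w → Continuous v → Continuous y →
  (∀ t, PJ b J (y t) = y t) →
  (Continuous fun t => h1 μ al (y t)) ∧ (Continuous fun t => h2 μ al l (w t) (y t)) ∧
  (Continuous fun t => h3 μ a al l M (w t) (y t)) ∧
  (Continuous fun t => h4 μ a al l M (w t) (v t) (y t)) ∧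
  (Continuous fun t => lk μ b J (cfv μ a al M (v t)) (y t))

/-- GAL. The linearized flow on `P_J H × P_J H`.  `e` = an isometry onto this space
(dimension `2 |J|`), `B t = e* W(-t) inj (cf(v t) (W t e c).2)`: symmetric, nonnegative
(`GRQ`, `MLP`), continuous in `t` (its coefficients are integrals `∫ cf(v t) y y'` with `y, y'`
bounded and depending continuously on `t`, dominated convergence as in CTJ), FUN.  Trace in the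
orthonormal basis `W(-t)(b_j, 0), W(-t)(0, b_j)`: `∑_j ∫ cf(v t) b_j² ≤ A ∫ cf(v t)`. -/
def GalStmt : Prop := ∀ (X : Type) [MeasurableSpace X] (μ : Measure X) [IsFiniteMeasure μ]
  (κ : Type) (b : HilbertBasis κ ℝ (Lp ℝ 2 μ)) (om : κ → ℝ)
  (W : ℝ → KK (Lp ℝ 2 μ) →L[ℝ] KK (Lp ℝ 2 μ)) (J : Finset κ) (A a al M : ℝ)
  (v : ℝ → Lp ℝ 2 μ), Grp b om W → 0 < a → 0 < al → 0 < M → 0 ≤ A → J.Nonempty →
  (∀ᵐ x ∂μ, ∑ j ∈ J, (b j x) ^ 2 ≤ A) → Continuous v →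
  ∃ (e : EuclideanSpace ℝ (Fin (2 * J.card)) →ₗᵢ[ℝ] KK (Lp ℝ 2 μ))
    (Φ : ℝ → EuclideanSpace ℝ (Fin (2 * J.card)) →L[ℝ] EuclideanSpace ℝ (Fin (2 * J.card))),
    Lf μ a al M b W J v e Φ ∧ ∀ s t, s ≤ t →
      Real.log (LinearMap.det (Φ s : _ →ₗ[ℝ] EuclideanSpace ℝ (Fin (2 * J.card)))) -
      Real.log (LinearMap.det (Φ t : _ →ₗ[ℝ] EuclideanSpace ℝ (Fin (2 * J.card)))) ≤
        A * ∫ r in s..t, ∫ x, cf a al M (v r x) ∂μ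

/-- DIF. The static perturbation inequality: integrate PWI with `w = cf(v x)`, `y` bounded
(`PJ b J y = y`), and `- 2 ⟪(1 - P_J)(cf(v) y), d⟫ ≤ (2/ep) lk + (ep/2) ‖d‖²`. Here `w` is the
velocity of the base orbit at level `l`, `v` the one at level infinity. -/
def DifStmt : Prop := ∀ a al : ℝ, 0 < a → 0 < al → ∃ C : ℝ, 0 < C ∧
  ∀ (X : Type) [MeasurableSpace X] (μ : Measure X) [IsFiniteMeasure μ] (κ : Type)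
  (b : HilbertBasis κ ℝ (Lp ℝ 2 μ)) (J : Finset κ) (A l M ep : ℝ) (w v y d : Lp ℝ 2 μ),
  0 < l → 0 < M → 0 < ep → (∀ᵐ x ∂μ, ∑ j ∈ J, (b j x) ^ 2 ≤ A) → PJ b J y = y →
  -(2 * ⟪nem μ (gl a al l) (w + y + d) - nem μ (gl a al l) w, d⟫_ℝ) +
    2 * ⟪PJ b J (ml μ (cfv μ a al M v) y), d⟫_ℝ ≤
  C * (h1 μ al y + h2 μ al l w y + h3 μ a al l M w y +
    (1 / ep) * (h4 μ a al l M w v y + lk μ b J (cfv μ a al M v) y)) + ep * ‖d‖ ^ 2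

/-- PER. The perturbation estimate.  `D = Z1 - Z0 - e (Φ t c)`, `D 0 = 0`,
`w = (W Z0).2`, `y = (W e Φ c).2`, `d = (W D).2`, `(W Z1).2 = w + y + d`;
`d/dr ‖D‖² = - 2 ⟪nem (w+y+d) - nem w, d⟫ + 2 ⟪P_J (cf(v) y), d⟫` (GPK: `PK W(-t) inj u =
W(-t) inj (PJ u)`; ENG), DIF with `ep = 1/(2s)`: `‖D t‖² ≤ C' ∫_0^s hh + (1/(2s)) ∫_0^t ‖D‖²`
(all terms of `hh` are nonnegative and continuous in `r`, CTI), so the supremum of `‖D‖²` on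
`[0, s]` is `≤ 2 C' ∫_0^s hh`. -/
def PerStmt : Prop := ∀ a al : ℝ, 0 < a → 0 < al → ∃ C : ℝ, 0 < C ∧
  ∀ (X : Type) [MeasurableSpace X] (μ : Measure X) [IsFiniteMeasure μ] (κ : Type)
  (b : HilbertBasis κ ℝ (Lp ℝ 2 μ)) (om : κ → ℝ)
  (W : ℝ → KK (Lp ℝ 2 μ) →L[ℝ] KK (Lp ℝ 2 μ)) (J : Finset κ) (A M l : ℝ)
  (v : ℝ → Lp ℝ 2 μ) (E : Type) [NormedAddCommGroup E] [InnerProductSpace ℝ E]
  (e : E →ₗᵢ[ℝ] KK (Lp ℝ 2 μ)) (Φ : ℝ → E →L[ℝ] E) (V : KK (Lp ℝ 2 μ))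
  (Z0 Z1 : ℝ → KK (Lp ℝ 2 μ)) (c : E) (s : ℝ),
  Grp b om W → 0 < M → 0 < l → 0 < s → (∀ᵐ x ∂μ, ∑ j ∈ J, (b j x) ^ 2 ≤ A) → Continuous v →
  Lf μ a al M b W J v e Φ → IsFl W (nem μ (gl a al l)) V Z0 →
  IsFl W (nem μ (gl a al l)) (V + e c) Z1 →
  ∀ t ∈ Icc (0 : ℝ) s, ‖Z1 t - Z0 t - e (Φ t c)‖ ^ 2 ≤ C * ∫ r in (0 : ℝ)..s,
    hh μ a al l M s b J (P2 (W r (Z0 r))) (v r) (P2 (W r (e (Φ r c))))

/-- AVD. Average of the right side of PER over the signs, `c = (L/√r) ∑ ± g i`, `s = tm m k`.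
For `t` in the `j`-th block `[tm j, tm (j+1)]`, `j < k`, put `u i = (L/√r) P2 (W t (e (Φ t (g i))))`:
`‖∑ a_i u_i‖² ≤ (L²/r) ‖Φ t (∑ a_i g_i)‖² ≤ (L²/r) G_j ∑ a_i²` (`Lf.anti`), and `|J| ≤ r`.
EX1 with `A B ≤ CW L² G_j` and `p = al + 2` (`ρ = 1`), `p = 4` (`ρ = mm (al-2) w`), `p = 2`
(`ρ = (ql w - M)^+` and `ρ = (min (ql w, M) - cf v)²`), and EX4 with
`B ∑_j lk ≤ L² G_j b5`.  Integrate over the blocks (everything is continuous in `t`: CTI, CTJ);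
the length of the block is `≤ 2^(m(j+1))`, `G_j ≤ G_0`. -/
def AvdStmt : Prop := ∀ al CW mX : ℝ, 0 < al → 0 < CW → 0 ≤ mX → ∃ C : ℝ, 0 < C ∧
  ∀ (X : Type) [MeasurableSpace X] (μ : Measure X) [IsFiniteMeasure μ] (κ : Type)
  (b : HilbertBasis κ ℝ (Lp ℝ 2 μ)) (om : κ → ℝ)
  (W : ℝ → KK (Lp ℝ 2 μ) →L[ℝ] KK (Lp ℝ 2 μ)) (J : Finset κ) (a M l : ℝ)
  (v : ℝ → Lp ℝ 2 μ) (E : Type) [NormedAddCommGroup E] [InnerProductSpace ℝ E]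
  (e : E →ₗᵢ[ℝ] KK (Lp ℝ 2 μ)) (Φ : ℝ → E →L[ℝ] E) (V : KK (Lp ℝ 2 μ))
  (Z0 : ℝ → KK (Lp ℝ 2 μ)) (m k r : ℕ) (g : Fin r → E) (G b2 : ℕ → ℝ) (L b3 b4 b5 : ℝ),
  μ.real univ ≤ mX → Grp b om W → 0 < a → 0 < M → 0 < l → J.Nonempty → J.card ≤ r →
  (∀ᵐ x ∂μ, ∑ j ∈ J, (b j x) ^ 2 ≤ CW * J.card) → Continuous v →
  Lf μ a al M b W J v e Φ → IsFl W (nem μ (gl a al l)) V Z0 → 1 ≤ m → 1 ≤ k → 0 < L →
  (∀ j, 0 ≤ G j) → (∀ i j, i ≤ j → G j ≤ G i) →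
  (∀ j < k, ∀ a' : Fin r → ℝ,
    ‖Φ (tm m j) (∑ i, a' i • g i)‖ ^ 2 ≤ G j * ∑ i, a' i ^ 2) →
  (∀ j, 0 ≤ b2 j) →
  (2 < al → ∀ j < k, ∫ t in (tm m j)..(tm m (j + 1)),
    ∫ x, mm (al - 2) l (P2 (W t (Z0 t)) x) ∂μ ≤ b2 j) →
  (∫ t in (0 : ℝ)..(tm m k), ∫ x, max (ql a al l (P2 (W t (Z0 t)) x) - M) 0 ∂μ ≤ b3) →
  (∀ t ∈ Icc (0 : ℝ) (tm m k), ∫ x, (min (ql a al l (P2 (W t (Z0 t)) x)) M -
    cf a al M (v t x)) ^ 2 ∂μ ≤ b4) →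
  (∀ t ∈ Icc (0 : ℝ) (tm m k),
    (1 / (J.card : ℝ)) * ∑ j ∈ J, lk μ b J (cfv μ a al M (v t)) (b j) ≤ b5) →
  av (fun ε => ∫ t in (0 : ℝ)..(tm m k), hh μ a al l M (tm m k) b J (P2 (W t (Z0 t))) (v t)
    (P2 (W t (e (Φ t ((L / Real.sqrt r) • ∑ i, sg (ε i) • g i)))))) ≤
  C * (∑ j ∈ Finset.range k, (2 : ℝ) ^ (m * (j + 1)) * (L ^ 2 * G j) ^ ((al + 2) / 2) +
    ∑ j ∈ Finset.range k, (L ^ 2 * G j) ^ 2 * b2 j + L ^ 2 * G 0 * b3 +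
    (tm m k) ^ 2 * (L ^ 2 * G 0) * (b4 + b5))

end

end Pool.Agent.BEL
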