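import Pool.Agent.BEL.StmtsC

/-!
# Squad BEL (MP_be01ff_an), rows of the core, part 2
-/

namespace Pool.Agent.BEL

open MeasureTheory Filter Topology Set
open scoped InnerProductSpace ENNReal

noncomputable section

/-! ## F. Bounds of the base orbit -/

/-- DSP. Consequences of the energy identity, uniform in `l`; `v r = P2 (W r (Z r))`.
(1) FLP (energy identity) and `gl(s) s ≥ a mm(s) s² ≥ a mm (al+2) l s` (CGL) give `D := ∫_s^t ∫ mm (al+2) l v ≤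
‖Z s‖²/(2a)`.  Write `n = min (|v|, l)`, so `mm q l v = n^q`.
(2),(4) For `q = al - 2 > 0` and `q = al` and every `τ > 0`: `n^q ≤ τ^(q-al-2) n^(al+2) + τ^q`.
Integrate and take `τ = (‖Z s‖²/(t-s))^(1/(al+2))` (if `‖Z s‖ = 0` then `Z r = 0` for `r ≥ s` and
all the integrals vanish: `‖Z r‖ ≤ ‖Z s‖` by FLP; `s = t` is trivial).
(3) `(ql - M)^+ ≤ ql 1_(ql > M) ≤ ql (ql/M)^(2/al) = C M^(-2/al) n^(al+2)`. -/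
def DspStmt : Prop := ∀ a al mX : ℝ, 0 < a → 0 < al → 0 ≤ mX → ∃ C : ℝ, 0 < C ∧
  ∀ (X : Type) [MeasurableSpace X] (μ : Measure X) [IsFiniteMeasure μ] (κ : Type)
  (b : HilbertBasis κ ℝ (Lp ℝ 2 μ)) (om : κ → ℝ)
  (W : ℝ → KK (Lp ℝ 2 μ) →L[ℝ] KK (Lp ℝ 2 μ)) (l : ℝ) (V : KK (Lp ℝ 2 μ))
  (Z : ℝ → KK (Lp ℝ 2 μ)), μ.real univ ≤ mX → Grp b om W → 0 < l →
  IsFl W (nem μ (gl a al l)) V Z → ∀ s t, s ≤ t →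
  (∫ r in s..t, ∫ x, mm (al + 2) l (P2 (W r (Z r)) x) ∂μ ≤ C * ‖Z s‖ ^ 2) ∧
  (2 < al → ∫ r in s..t, ∫ x, mm (al - 2) l (P2 (W r (Z r)) x) ∂μ ≤
    C * (t - s) ^ (4 / (al + 2)) * (‖Z s‖ ^ 2) ^ ((al - 2) / (al + 2))) ∧
  (∀ M, 0 < M → ∫ r in s..t, ∫ x, max (ql a al l (P2 (W r (Z r)) x) - M) 0 ∂μ ≤
    C * M ^ (-(2 / al)) * ‖Z s‖ ^ 2) ∧
  (∫ r in s..t, ∫ x, ql a al l (P2 (W r (Z r)) x) ∂μ ≤
    C * (t - s) ^ (2 / (al + 2)) * (‖Z s‖ ^ 2) ^ (al / (al + 2)))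

/-- CFL. Convergence of the truncated coefficient.  For `a (al+1) n^al ≥ M`,
`min (ql a al n s) M = cf s` (CGL); `cf` is uniformly continuous (it is continuous, and constant
for large `|s|`), so for every `e` there is `K` with `|cf s - cf r| ≤ e + K |s - r|`, and
`∫ (cf w - cf v)² ≤ 2 e² μ(X) + 2 K² ‖w - v‖²`; `‖W t (Z n V t) - S t V‖ → 0` uniformly. -/
def CflStmt : Prop := ∀ (X : Type) [MeasurableSpace X] (μ : Measure X) [IsFiniteMeasure μ]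
  (κ : Type) (a al : ℝ) (b : HilbertBasis κ ℝ (Lp ℝ 2 μ)) (om : κ → ℝ)
  (W : ℝ → KK (Lp ℝ 2 μ) →L[ℝ] KK (Lp ℝ 2 μ)) (Z : ℕ → KK (Lp ℝ 2 μ) → ℝ → KK (Lp ℝ 2 μ))
  (S : ℝ → KK (Lp ℝ 2 μ) → KK (Lp ℝ 2 μ)), 0 < a → 0 < al → Grp b om W →
  IsLim W (fun n : ℕ => nem μ (gl a al n)) Z S → ∀ (V : KK (Lp ℝ 2 μ)) (M T ε : ℝ), 0 < M →
  0 < ε → ∀ᶠ n : ℕ in atTop, ∀ t ∈ Icc (0 : ℝ) T,
    ∫ x, (min (ql a al n (P2 (W t (Z n V t)) x)) M - cf a al M (P2 (S t V) x)) ^ 2 ∂μ ≤ ε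

/-- SPR. Properties of the limit flow: PRS with GLP and NEM. -/
def SprStmt : Prop := ∀ (X : Type) [MeasurableSpace X] (μ : Measure X) [IsFiniteMeasure μ]
  (κ : Type) (a al : ℝ) (b : HilbertBasis κ ℝ (Lp ℝ 2 μ)) (om : κ → ℝ)
  (W : ℝ → KK (Lp ℝ 2 μ) →L[ℝ] KK (Lp ℝ 2 μ)) (Z : ℕ → KK (Lp ℝ 2 μ) → ℝ → KK (Lp ℝ 2 μ))
  (S : ℝ → KK (Lp ℝ 2 μ) → KK (Lp ℝ 2 μ)), 0 < a → 0 < al → Grp b om W →
  IsLim W (fun n : ℕ => nem μ (gl a al n)) Z S →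
  (∀ V, S 0 V = V) ∧ (∀ t, 0 ≤ t → ∀ V V', ‖S t V - S t V'‖ ≤ ‖V - V'‖) ∧
  (∀ V, ContinuousOn (fun t => S t V) (Ici 0)) ∧
  (∀ V, Continuous fun t => S (max t 0) V) ∧
  (∀ V, AntitoneOn (fun t => ‖S t V‖) (Ici 0))

/-- BLS. Bound of the space-time integral of the coefficient for the limit orbit.  At level `n`
with `a (al+1) n^al ≥ M`: `cf w_n = min (ql w_n, M) ≤ ql w_n`, so DSP (4) bounds
`∫_s^t ∫ cf w_n` by `C (t-s)^.. (‖Z n V s‖²)^..`; let `n → ∞` (`∫ cf w_n → ∫ cf v` uniformly in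
`t ∈ [s, t]`: CFL and Cauchy-Schwarz; `‖Z n V s‖ = ‖W s (Z n V s)‖ → ‖S s V‖`). -/
def BlsStmt : Prop := ∀ a al mX : ℝ, 0 < a → 0 < al → 0 ≤ mX → ∃ C : ℝ, 0 < C ∧
  ∀ (X : Type) [MeasurableSpace X] (μ : Measure X) [IsFiniteMeasure μ] (κ : Type)
  (b : HilbertBasis κ ℝ (Lp ℝ 2 μ)) (om : κ → ℝ)
  (W : ℝ → KK (Lp ℝ 2 μ) →L[ℝ] KK (Lp ℝ 2 μ)) (Z : ℕ → KK (Lp ℝ 2 μ) → ℝ → KK (Lp ℝ 2 μ))
  (S : ℝ → KK (Lp ℝ 2 μ) → KK (Lp ℝ 2 μ)), μ.real univ ≤ mX → Grp b om W →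
  IsLim W (fun n : ℕ => nem μ (gl a al n)) Z S →
  ∀ (V : KK (Lp ℝ 2 μ)) (M s t : ℝ), 0 < M → 0 ≤ s → s ≤ t →
  ∫ r in s..t, ∫ x, cf a al M (P2 (S (max r 0) V) x) ∂μ ≤
    C * (t - s) ^ (2 / (al + 2)) * (‖S s V‖ ^ 2) ^ (al / (al + 2))

/-- LKU. The leakage tends to `0` uniformly on `[0, T]`.  For `f, g` bounded by `M` (1 - P_J is a
contraction): `lk f (b j) ≤ 2 lk g (b j) + 2 ∫ (f - g)² b_j²`, and by `j1`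
`(1/|J|) ∑_j ∫ (f - g)² b_j² ≤ C ∫ (f - g)²`.  The map `t ↦ cf(v t) ∈ L²` is continuous, so
uniformly continuous on `[0, T]`: take a finite net `t_1, ..., t_N` with
`∫ (cf(v t) - cf(v t_i))² ≤ ε/(4C)` and `n` so large that the leakages of the `N` functions
`cf(v t_i)` (bounded, measurable: `j3`) are `≤ ε/4`. (If `T < 0` nothing to prove.) -/
def LkuStmt : Prop := ∀ (X : Type) [MeasurableSpace X] (μ : Measure X) [IsFiniteMeasure μ]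
  (κ : Type) (a al : ℝ) (b : HilbertBasis κ ℝ (Lp ℝ 2 μ)) (om : κ → ℝ)
  (R : Lp ℝ 2 μ →L[ℝ] Lp ℝ 2 μ) (W : ℝ → KK (Lp ℝ 2 μ) →L[ℝ] KK (Lp ℝ 2 μ))
  (Js : ℕ → Finset κ), Cor μ a al b om R W Js → ∀ (M T ε : ℝ) (v : ℝ → Lp ℝ 2 μ), 0 < M →
  0 < ε → Continuous v → ∀ᶠ n in atTop, ∀ t ∈ Icc (0 : ℝ) T,
    (1 / ((Js n).card : ℝ)) * ∑ j ∈ Js n, lk μ b (Js n) (cfv μ a al M (v t)) (b j) ≤ ε

/-! ## I. The backup lemma and the end -/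

/-- NU1 (real numbers). With `L = 8 c 2^(-mk/al)`, `Gr i = (Ma/nu) 2^(lam m i)` and
`lam (al+2)/2 = 1/4`: `∑_(j<k) 2^(m(j+1)) (L² Gr(k-1-j))^((al+2)/2) = L^(al+2) (Ma/nu)^((al+2)/2)
2^(mk) ∑_(i<k) 2^(-(3/4) m i) ≤ C L^(al+2) 2^(mk)` and `L^al 2^(mk) = (8c)^al`. -/
def Nu1Stmt : Prop := ∀ (al : ℝ) (m : ℕ), Prm al m → ∃ C : ℝ, 0 < C ∧ ∀ (c : ℝ) (k : ℕ),
  0 < c → 1 ≤ k → ∑ j ∈ Finset.range k, (2 : ℝ) ^ (m * (j + 1)) *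
    ((8 * c * (2 : ℝ) ^ (-((m * k : ℝ) / al))) ^ 2 * Gr al m (k - 1 - j)) ^ ((al + 2) / 2) ≤
    C * c ^ al * (8 * c * (2 : ℝ) ^ (-((m * k : ℝ) / al))) ^ 2

/-- NU2 (real numbers). `∑_(j<k) (L² Gr(k-1-j))² 2^(2mj/al) X_j = L² 64 c² (Ma/nu)²
∑_(j<k) 2^(2 lam m (k-1-j) - 2 m (k-j)/al) X_j` and `lam < 1/al`: a geometric series; the part
`j < j1` is `≤ C D 2^(-2 m (k - j1)(1/al - lam))`, which is `≤ 1` for `k ≥ k1`. -/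
def Nu2Stmt : Prop := ∀ (al : ℝ) (m : ℕ) (C0 : ℝ), Prm al m → 0 < C0 → ∃ C : ℝ, 0 < C ∧
  ∀ (D : ℝ) (j1 : ℕ), 0 < D → ∃ k1 : ℕ, 1 ≤ k1 ∧ ∀ (c : ℝ) (k : ℕ) (Y : ℕ → ℝ), 0 < c →
  k1 ≤ k → (∀ j, 0 ≤ Y j) → (∀ j, Y j ≤ D) → (∀ j, j1 ≤ j → Y j ≤ C0) →
  ∑ j ∈ Finset.range k,
    ((8 * c * (2 : ℝ) ^ (-((m * k : ℝ) / al))) ^ 2 * Gr al m (k - 1 - j)) ^ 2 *
      ((2 : ℝ) ^ (2 * (m * j : ℝ) / al) * Y j) ≤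
    C * c ^ 2 * (8 * c * (2 : ℝ) ^ (-((m * k : ℝ) / al))) ^ 2

/-- BKP (helper53). The backup lemma.  The hypothesis on `S` is the universal upper bound (UBD). -/
def BkpStmt : Prop := ∀ (X : Type) [MeasurableSpace X] (μ : Measure X) [IsFiniteMeasure μ]
  (κ : Type) (a al : ℝ) (b : HilbertBasis κ ℝ (Lp ℝ 2 μ)) (om : κ → ℝ)
  (R : Lp ℝ 2 μ →L[ℝ] Lp ℝ 2 μ) (W : ℝ → KK (Lp ℝ 2 μ) →L[ℝ] KK (Lp ℝ 2 μ))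
  (Js : ℕ → Finset κ), Cor μ a al b om R W Js → ∀ Z S,
  IsLim W (fun n : ℕ => nem μ (gl a al n)) Z S → ∀ (m : ℕ) (C0 : ℝ), Prm al m → 0 < C0 →
  (∀ V, (∃ M : ℝ, ∀ j, am al m S V j ≤ M) ∧ ∃ j1 : ℕ, ∀ j ≥ j1, am al m S V j ≤ C0) →
  ∃ C1 c1 : ℝ, 0 < C1 ∧ 0 < c1 ∧ Bkp al m S C1 c1

/-- CNT. From the backup lemma to the counting (Ekeland: `Pool.Agent.BEL.H61.ekeland`).  `c ≤ c1` with `C1 (c/2)^(2al/(al+2)) ≤ lgm/8`;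
th `= 1/20`.  For `V0`, `ρ` take `j0` large and `J(V) = ∑'_(j ≥ j0) th^j min (am j V, c)`
(continuous: uniformly convergent sum of continuous functions; `0 ≤ J ≤ 2 c th^j0`), Ekeland with
`η = 4 c th^j0/ρ`: `V*` with `‖V* - V0‖ ≤ ρ/2` and `J V ≤ J V* + η ‖V - V*‖`.
CLAIM: for large `k < N` with `am k V* < c/2`, `k` is in the set `bad` of `Bkp` for `V*`, `N`,
`δ` small (depending on `N`).  Otherwise take `D`: term `k` gains `≥ th^k c/2`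
(`am k (V*+D) ≥ 6c - c/2`), the terms `j > k` lose `≤ c th^k/19`, the terms `i < k` lose at most
`∑ th^i 2^(mi/al) ((1/32) c 2^(-mk/al) + δ) ≤ c th^k/32 + δ C_N` (as `2^(-m/al) ≤ th/2`, `m3`),
`η ‖D‖ ≤ η C1 c th^k ≤ c th^k/16` (`m2`, `j0` large).  Sum of the losses `< c th^k/2`.
COUNTING: `lgm #{k < N : k ≥ k2, am k < c/2} ≤ nu N + C1 (N (c/2)^(2al/(al+2)) +
C0^(2al/(al+2)) #{k<N : am k ≥ c/2} + const) + 1` (for `k < k2` the `am k` are bounded by a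
constant depending on `V*`), `nu ≤ lgm/8`. -/
def CntStmt : Prop := ∀ (K : Type) [NormedAddCommGroup K] [CompleteSpace K] (al : ℝ) (m : ℕ)
  (S : ℝ → K → K) (C1 c1 C0 : ℝ), Prm al m → 0 < C1 → 0 < c1 → 0 < C0 →
  (∀ t V V', 0 ≤ t → ‖S t V - S t V'‖ ≤ ‖V - V'‖) → Bkp al m S C1 c1 →
  (∀ V, ∃ k2 : ℕ, ∀ k ≥ k2, am al m S V k ≤ C0) →
  ∃ c g : ℝ, 0 < c ∧ 0 < g ∧ ∀ (V0 : K) (ρ : ℝ), 0 < ρ → ∃ V : K, ‖V - V0‖ < ρ ∧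
    ∃ B : ℝ, ∀ N : ℕ, ∃ s : Finset ℕ, s ⊆ Finset.range N ∧ (∀ k ∈ s, c ≤ am al m S V k) ∧
      g * N - B ≤ (s.card : ℝ)

/-- LGD (real numbers). From the counting to the lower logarithmic density.  If
`c ≤ 2^(mk/al) f(tm k)`, `k ≥ 1`, then for `t ∈ [2^(mk-1), 2^(mk) - 1]`: `f t ≥ f(tm k) ≥
c 2^(-mk/al) ≥ c (2t)^(-1/al)`, so `f(t)² ≥ c' t^(-2/al)`, `c' = c² 2^(-2/al)`; the integral of
`1/t` on the interval is `log (2 - 2^(1-mk)) ≥ log (3/2)`; the intervals are disjoint; for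
`2^(m(N-1)) ≤ T < 2^(mN)` the intervals with `1 ≤ k ≤ N - 1` are in `[1, T]` and
`log T ≤ m N log 2`.  `g' = g log(3/2)/(2 m log 2)`. (`Prm` gives `m ≥ 8`.) -/
def LgdStmt : Prop := ∀ (al : ℝ) (m : ℕ) (c g : ℝ), Prm al m → 0 < c → 0 < g →
  ∃ c' g' : ℝ, 0 < c' ∧ 0 < g' ∧ ∀ (B : ℝ) (f : ℝ → ℝ), (∀ t, 0 ≤ f t) →
  AntitoneOn f (Ici 0) → (∀ N : ℕ, ∃ s : Finset ℕ, s ⊆ Finset.range N ∧
    (∀ k ∈ s, c ≤ (2 : ℝ) ^ ((m * k : ℝ) / al) * f (tm m k)) ∧ g * N - B ≤ (s.card : ℝ)) →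
  ∀ c'' : ℝ, 0 < c'' → c'' ≤ c' → LowLog {t | c'' * t ^ (-(2 / al)) ≤ f t ^ 2} g'

/-- GDE. The dense G delta. -/
def GdeStmt : Prop := ∀ (K : Type) [NormedAddCommGroup K] (al c : ℝ) (S : ℝ → K → K),
  0 < al → 0 < c → (∀ t V V', 0 ≤ t → ‖S t V - S t V'‖ ≤ ‖V - V'‖) →
  (∀ (V0 : K) (ρ : ℝ), 0 < ρ → ∃ V, ‖V - V0‖ < ρ ∧
    ∃ᶠ t : ℝ in atTop, c * t ^ (-(2 / al)) ≤ ‖S t V‖ ^ 2) →
  ∃ D : Set K, IsGδ D ∧ Dense D ∧ ∀ V ∈ D,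
    ∃ᶠ t : ℝ in atTop, c / 2 * t ^ (-(2 / al)) ≤ ‖S t V‖ ^ 2

/-- PRX. Existence of the parameter `m`. -/
def PrxStmt : Prop := ∀ al : ℝ, 0 < al → ∃ m : ℕ, Prm al m

/-- COR. From the interface `Inp` of the PDE part to `Cor` (GRP, RIN).  `Js n = range (s n)`; `lk f (b k) =
‖f b_k‖² - ∑_(l < s n) ⟪b_l, f b_k⟫²` (Pythagoras); `emb`: the partial sums of
`R z = ∑ (⟪b k, z⟫/om k) b k` are bounded in `L^p` by `C ‖z‖` and converge in `L²`, Fatou. -/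
def CorStmt : Prop := ∀ (X : Type) [MeasurableSpace X] (μ : Measure X) [IsFiniteMeasure μ]
  (a al : ℝ) (b : HilbertBasis ℕ ℝ (Lp ℝ 2 μ)) (om : ℕ → ℝ), 0 < a → 0 < al →
  Inp μ al b om → ∃ R W Js, Cor μ a al b om R W Js

/-- CRF (the row delivers `CoreStmt` itself: `theorem crf ... : CoreStmt`; helper53 or free).
Uses COR LIM SOL UBD PRX BKP CNT LGD GDE SPR. -/
def CrfStmt : Prop := CoreStmt

end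

end Pool.Agent.BEL
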