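import Pool.Agent.BEL.DefsP

/-!
# Squad BEL (MP_be01ff_an): statements of the PDE part (rows), and the result

Every bounded nonempty open set `Ω`, every dimension `d ≥ 1`.  Complete proofs are in the
docstrings.  Already proved, may be cited freely (all dimensions):
`Pool.Agent.BE01.H51.eib : EibStmt` (eigenbasis of a compact positive operator),
`hsc : HscStmt` in `Pool/Agent/Helper72_BE01/Hsc.lean` (operators `L^2 → L^∞` are compact; there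
also `ae_sum_sq`), `dns : DnsStmt` in `Pool/Agent/Helper94_BE01/Dns.lean` (test functions are
dense in `L^2`); `Helper51_BE01/Sob.lean`, `Helper91_BE01/EMB.lean`, `Helper69_BE01/Chn.lean` are
the proofs for `d = 2, 3` and can be copied and edited.  For `G : VV Ω` the norm is that of
`Lp (En d) 2 (mu Ω)`.
-/

namespace Pool.Agent.BEL

open Set Filter Topology MeasureTheory
open scoped InnerProductSpace ENNReal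
open Pool.Agent.BE01

noncomputable section

/-! ## Embeddings -/

/-- SOB: Sobolev inequality, every dimension.  Proof: norms over `Ω` and over the whole space
agree for `ψ` and its gradient.  `d ≥ 3`: `eLpNorm_le_eLpNorm_fderiv_of_le` with exponents `2`
and `p` (`1/2 - 1/d ≤ 1/p`).  `d = 2`: the same with exponents `q = 2 p / (p + 2) ∈ [1, 2)` and
`p` (`1/q - 1/2 = 1/p`), then Hölder on the bounded set `Ω` (copy `H51.sob_aux`).  `d = 1`: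
`|ψ x| ≤ ∫ |ψ'| ≤ |Ω|^(1/2) ‖ψ'‖_2` by the fundamental theorem of calculus on the line (`En 1`
is isometric, with its measure, to `ℝ`), and `‖ψ‖_p ≤ |Ω|^(1/p) sup |ψ|`. -/
def SobStmt : Prop := ∀ (d : ℕ) (Ω : Set (En d)) (p : ℝ), 0 < d → Dom Ω → 2 ≤ p →
  ((d : ℝ) - 2) * p ≤ 2 * d → ∃ C : ℝ, 0 < C ∧ ∀ ψ, Tst Ω ψ →
    eLpNorm ψ (ENNReal.ofReal p) (mu Ω) ≤ ENNReal.ofReal C * eLpNorm (gradient ψ) 2 (mu Ω)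

/-- EMP (uses SOB with `p = 2`): the embedding.  Copy and edit `Helper91_BE01/EMB.lean`.
Proof: the gradients of test functions form a linear subspace, dense in `VV Ω`, on which
`∇ψ ↦ ψ` is well defined, linear and bounded; extend by continuity.  `H10 Ω` is the closure of
the graph, hence the graph of the extension. -/
def EmpStmt : Prop := ∀ (d : ℕ) (Ω : Set (En d)), 0 < d → Dom Ω →
  ∃ ι : VV Ω →L[ℝ] Lp ℝ 2 (mu Ω), Emb2 Ω ι ∧ Grf Ω ι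

/-- LPE (uses SOB).  Proof: for `G : VV Ω` choose test functions `ψ_n` with `∇ψ_n → G` in `L^2`;
`ψ_n = ι ∇ψ_n → ι G` in `L^2`, almost everywhere for a subsequence, and Fatou
(`Lp.eLpNorm_lim_le_liminf_eLpNorm`). -/
def LpeStmt : Prop := ∀ (d : ℕ) (Ω : Set (En d)) (ι : VV Ω →L[ℝ] Lp ℝ 2 (mu Ω)) (p : ℝ), 0 < d →
  Dom Ω → Emb2 Ω ι → 2 ≤ p → ((d : ℝ) - 2) * p ≤ 2 * d → ∃ C : ℝ, 0 < C ∧ ∀ G : VV Ω,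
    eLpNorm (ι G) (ENNReal.ofReal p) (mu Ω) ≤ ENNReal.ofReal (C * ‖G‖)

/-- CLO: the embedding is injective.  Proof: let `∇ψ_n → G` in `L^2`, so `ψ_n → ι G = 0` in
`L^2`.  For a test function `φ` and a vector `e`: `∫ ⟪∇ψ_n, e⟫ φ = - ∫ ψ_n ⟪∇φ, e⟫ → 0`
(`integral_mul_fderiv_eq_neg_fderiv_mul_of_integrable` on the whole space), so
`∫ ⟪G, e⟫ φ = 0` for all test functions `φ`; they are dense in `L^2` (`dns`), so `⟪G, e⟫ = 0`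
almost everywhere, for all `e` in a basis. -/
def CloStmt : Prop := ∀ (d : ℕ) (Ω : Set (En d)) (ι : VV Ω →L[ℝ] Lp ℝ 2 (mu Ω)),
  Dom Ω → Emb2 Ω ι → ∀ G : VV Ω, ι G = 0 → G = 0

/-- TRN: translations.  Proof: `ψ x - ψ (x - y) = ∫_0^1 ⟪∇ψ (x - s y), y⟫ ds`, so by
Cauchy-Schwarz `|ψ x - ψ (x - y)|^2 ≤ |y|^2 ∫_0^1 |∇ψ (x - s y)|^2 ds`; integrate in `x`
(Fubini, translation invariance).  Everything is continuous with compact support. -/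
def TrnStmt : Prop := ∀ (d : ℕ) (ψ : En d → ℝ), ContDiff ℝ ((⊤ : ℕ∞) : WithTop ℕ∞) ψ →
  HasCompactSupport ψ → ∀ y : En d,
    ∫ x, (ψ x - ψ (x - y)) ^ 2 ≤ ‖y‖ ^ 2 * ∫ x, ‖gradient ψ x‖ ^ 2

/-- AVO (uses TRN): averages.  Proof: `A f x = |B_r|^(-1) ∫_{B(x, r) ∩ Ω} f` for `x` in `Ω`
(`B_r` ball of radius `r`).  Cauchy-Schwarz: `|A f x| ≤ |B_r|^(-1/2) ‖f‖`, and
`|B_r|^(-1/2) = C r^(-d/2)`: first bound, and `A` is bounded in `L^2` (finite measure).  `A` is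
symmetric (Fubini, the kernel `1[|x - y| < r]` is symmetric), so
`‖A f‖^2 = ⟪A f, A f⟫ = ∫ f A (A f) ≤ C r^(-d/2) ‖A f‖ ∫ |f|`: second bound.  Third bound: for a
test function `ψ`, `ψ x - A ψ x = |B_r|^(-1) ∫_{|y| < r} (ψ x - ψ (x - y)) dy`, so
`|ψ x - A ψ x|^2 ≤ |B_r|^(-1) ∫_{|y| < r} (ψ x - ψ (x - y))^2 dy`; integrate in `x`, TRN:
`‖ψ - A ψ‖ ≤ r ‖∇ψ‖`; the gradients of the test functions are dense in `VV Ω`, all is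
continuous. -/
def AvoStmt : Prop := ∀ (d : ℕ) (Ω : Set (En d)) (ι : VV Ω →L[ℝ] Lp ℝ 2 (mu Ω)), 0 < d → Dom Ω →
  Emb2 Ω ι → ∃ C : ℝ, 0 < C ∧ ∀ r : ℝ, 0 < r → ∃ A : Lp ℝ 2 (mu Ω) →L[ℝ] Lp ℝ 2 (mu Ω),
    (∀ f, ∀ᵐ x ∂(mu Ω), |A f x| ≤ C * r ^ (-((d : ℝ) / 2)) * ‖f‖) ∧
    (∀ f, ‖A f‖ ≤ C * r ^ (-((d : ℝ) / 2)) * ∫ x, |f x| ∂(mu Ω)) ∧
    ∀ G : VV Ω, ‖ι G - A (ι G)‖ ≤ r * ‖G‖

/-- RLC (uses AVO): Rellich.  Proof: `A` is compact for every `r` (`hsc`), so `A ∘ ι` is compact,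
and `‖ι - A ∘ ι‖ ≤ r → 0`; compact operators are closed. -/
def RlcStmt : Prop := ∀ (d : ℕ) (Ω : Set (En d)) (ι : VV Ω →L[ℝ] Lp ℝ 2 (mu Ω)), 0 < d → Dom Ω →
  Emb2 Ω ι → IsCompactOperator ι

/-- NSH (uses AVO): Nash.  Proof: with `N = ∫ |ι G|`, AVO gives
`‖ι G‖ ≤ r ‖G‖ + C r^(-d/2) N` for all `r > 0`.  If `ι G = 0` the claim is trivial.  Otherwise
`N > 0`; choose `r` with `C r^(-d/2) N = ‖ι G‖ / 2`, i.e. `r = (2 C N / ‖ι G‖)^(2/d)`; then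
`‖ι G‖ / 2 ≤ r ‖G‖`, i.e. `‖ι G‖^2 ≤ 4 (2 C N / ‖ι G‖)^(4/d) ‖G‖^2`. -/
def NshStmt : Prop := ∀ (d : ℕ) (Ω : Set (En d)) (ι : VV Ω →L[ℝ] Lp ℝ 2 (mu Ω)), 0 < d → Dom Ω →
  Emb2 Ω ι → ∃ κ : ℝ, 0 < κ ∧ ∀ G : VV Ω,
    κ * ‖ι G‖ ^ (2 + 4 / (d : ℝ)) ≤ ‖G‖ ^ 2 * (∫ x, |ι G x| ∂(mu Ω)) ^ (4 / (d : ℝ))

/-! ## Eigenfunctions -/

/-- ENM: enumeration in decreasing order.  Proof: each `{k | δ ≤ s k}` is finite, so `κ` is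
countable; take an injection `κ → ℕ` and order `κ` by decreasing `s`, ties by the injection;
every element has finitely many predecessors, and their number is a bijection `κ ≃ ℕ`; its
inverse is `σ`.  The limit: otherwise `{k | δ ≤ s k}` is infinite. -/
def EnmStmt : Prop := ∀ (κ : Type) (s : κ → ℝ), Infinite κ → (∀ k, 0 < s k) →
  (∀ δ : ℝ, 0 < δ → {k | δ ≤ s k}.Finite) → ∃ σ : ℕ ≃ κ, Antitone (fun n => s (σ n)) ∧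
    Tendsto (fun n => s (σ n)) atTop (𝓝 0)

/-- BMP: bumps.  Proof: `Ω` contains a cube `x₀ + [-h, h]^d`.  Let `m` be the least natural
number with `m^d ≥ n`, so `m ≤ 2 n^(1/d)`.  Choose `n` of the `m^d` subcubes of side `2 h / m`,
with centres `c_i`, which differ by at least `2 h / m` in some coordinate, and
`ψ_i x = φ ((x - c_i) / (h / m))`, `φ` a fixed nonzero smooth function with support in a compact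
subset of the unit ball (`ContDiffBump`); the supports are disjoint.  Change of variables:
`∫ ψ_i^2 = (h/m)^d ∫ φ^2` and `∫ |∇ψ_i|^2 = (h/m)^(d-2) ∫ |∇φ|^2`, so the quotient is
`(m/h)^2 ∫ |∇φ|^2 / ∫ φ^2 ≤ C n^(2/d)`. -/
def BmpStmt : Prop := ∀ (d : ℕ) (Ω : Set (En d)), 0 < d → Dom Ω → ∃ C : ℝ, 0 < C ∧
  ∀ n : ℕ, 0 < n → ∃ ψ : Fin n → En d → ℝ, (∀ i, Tst Ω (ψ i)) ∧
    (∀ i j, i ≠ j → ∀ x, ψ i x * ψ j x = 0) ∧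
    (∀ i j, i ≠ j → ∀ x, ⟪gradient (ψ i) x, gradient (ψ j) x⟫_ℝ = 0) ∧
    (∀ i, 0 < ∫ x, ψ i x ^ 2 ∂(mu Ω)) ∧
    ∀ i, ∫ x, ‖gradient (ψ i) x‖ ^ 2 ∂(mu Ω) ≤
      C * (n : ℝ) ^ (2 / (d : ℝ)) * ∫ x, ψ i x ^ 2 ∂(mu Ω)

/-- EIG (uses RLC, CLO, ENM, BMP): the eigenfunctions.  Proof: let `ι' = adjoint ι` and
`S = ι ∘ ι'`: compact, symmetric, and `⟪S h, h⟫ = ‖ι' h‖^2 > 0` for `h ≠ 0` (if `ι' h = 0`, then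
`h` is orthogonal to the range of `ι`, which contains the test functions, `dns`).
`H51.eib` gives `κ`, a Hilbert basis `b'` and `s k > 0` with `S (b' k) = s k b' k`.  `κ` is
infinite: otherwise `L^2` would have finite dimension, but BMP gives arbitrarily many nonzero
pairwise orthogonal functions.  `{k | δ ≤ s k}` is finite: otherwise there are infinitely many
orthonormal `b' k` with `‖S (b' k) - S (b' j)‖^2 = s k^2 + s j^2 ≥ 2 δ^2`, against compactness.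
ENM gives `σ`; `b n = b' (σ n)`, `om n = (s (σ n))^(-1/2)`, `e n = om n • ι' (b n)`:
`⟪e n, e m⟫ = om n om m ⟪b n, S (b m)⟫ = δ_nm`; if `G` is orthogonal to all `e n` then
`⟪b n, ι G⟫ = ⟪ι' (b n), G⟫ = 0` for all `n`, so `ι G = 0` and `G = 0` (CLO), so `e` is a Hilbert
basis (`HilbertBasis.mkOfOrthogonalEqBot`); `rel` is `⟪b n, ι G⟫ = ⟪ι' (b n), G⟫`. -/
def EigStmt : Prop := ∀ (d : ℕ) (Ω : Set (En d)) (ι : VV Ω →L[ℝ] Lp ℝ 2 (mu Ω)), 0 < d → Dom Ω →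
  Emb2 Ω ι → ∃ (b : HilbertBasis ℕ ℝ (Lp ℝ 2 (mu Ω))) (e : HilbertBasis ℕ ℝ (VV Ω)) (om : ℕ → ℝ),
    Spec Ω ι b e om

/-! ## Heat semigroup and local Weyl bound -/

/-- CH2: chain rule.  Copy and edit `Helper69_BE01/Chn.lean` (`Emb2` instead of `Emb`).  Proof:
test functions `ψ_n` with `∇ψ_n → G`, `ψ_n → ι G` in `L^2`, almost everywhere for a subsequence;
`Φ ∘ ψ_n` is a test function with gradient `Φ'(ψ_n) ∇ψ_n → Φ'(ι G) G` in `L^2` (dominated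
convergence), and `Φ ∘ ψ_n → Φ (ι G)` in `L^2`, as `Φ` is `M`-Lipschitz. -/
def Ch2Stmt : Prop := ∀ (d : ℕ) (Ω : Set (En d)) (ι : VV Ω →L[ℝ] Lp ℝ 2 (mu Ω)) (Φ : ℝ → ℝ)
  (M : ℝ), Dom Ω → Emb2 Ω ι → ContDiff ℝ ((⊤ : ℕ∞) : WithTop ℕ∞) Φ → Φ 0 = 0 →
  (∀ s, |deriv Φ s| ≤ M) → ∀ G : VV Ω, ∃ G' : VV Ω,
    ι G' =ᵐ[mu Ω] (fun x => Φ (ι G x)) ∧
    (G' : Lp (En d) 2 (mu Ω)) =ᵐ[mu Ω]
      fun x => deriv Φ (ι G x) • (G : Lp (En d) 2 (mu Ω)) x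

/-- LON (uses CH2): the resolvent is a contraction of `L^1`.  Proof: for `δ > 0` let
`Φ s = s / (s^2 + δ^2)^(1/2)`, smooth, `Φ 0 = 0`, `0 ≤ Φ' = δ^2 / (s^2 + δ^2)^(3/2) ≤ 1/δ`,
`|Φ| ≤ 1`.  With `G'` from CH2: `⟪G, G'⟫ = ∫ Φ'(ι G) |G|^2 ≥ 0`, so
`∫ (ι G) Φ(ι G) ≤ ∫ f Φ(ι G) ≤ ∫ |f|`; `s Φ(s) → |s|` for `δ → 0`, dominated by `|s|`. -/
def LonStmt : Prop := ∀ (d : ℕ) (Ω : Set (En d)) (ι : VV Ω →L[ℝ] Lp ℝ 2 (mu Ω)), Dom Ω →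
  Emb2 Ω ι → ∀ (f : Lp ℝ 2 (mu Ω)) (G : VV Ω) (lam : ℝ), 0 ≤ lam →
    (∀ G' : VV Ω, ⟪ι G, ι G'⟫_ℝ + lam * ⟪G, G'⟫_ℝ = ⟪f, ι G'⟫_ℝ) →
    ∫ x, |ι G x| ∂(mu Ω) ≤ ∫ x, |f x| ∂(mu Ω)

/-- LSM (uses LON): the heat semigroup is a contraction of `L^1`.  Proof: for `lam ≥ 0` and
`g ∈ L^2` with coefficients `g_k = ⟪b k, g⟫` let `G = Σ (om_k / (1 + lam om_k^2)) g_k e_k`
(square summable coefficients); by `rel` `ι G` has the coefficients `g_k / (1 + lam om_k^2)` and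
`⟪ι G, ι G'⟫ + lam ⟪G, G'⟫ = Σ (om_k^(-2) + lam) ⟪e_k, G⟫ ⟪e_k, G'⟫ = Σ g_k om_k^(-1) ⟪e_k, G'⟫ =
⟪g, ι G'⟫`, so `∫ |ι G| ≤ ∫ |g|` by LON.  With `lam = t / n`, `n` times: the function `u_n` with
coefficients `(1 + t om_k^2 / n)^(-n) f_k` has `∫ |u_n| ≤ ∫ |f|`.  `u_n → u` in `L^2` (dominated
convergence in the series `Σ |...|^2 f_k^2`), hence in `L^1` (finite measure). -/
def LsmStmt : Prop := ∀ (d : ℕ) (Ω : Set (En d)) (ι : VV Ω →L[ℝ] Lp ℝ 2 (mu Ω))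
  (b : HilbertBasis ℕ ℝ (Lp ℝ 2 (mu Ω))) (e : HilbertBasis ℕ ℝ (VV Ω)) (om : ℕ → ℝ), 0 < d →
  Dom Ω → Emb2 Ω ι → Spec Ω ι b e om → ∀ (t : ℝ) (f u : Lp ℝ 2 (mu Ω)), 0 ≤ t →
    Heat b om t f u → ∫ x, |u x| ∂(mu Ω) ≤ ∫ x, |f x| ∂(mu Ω)

/-- ULT (uses LSM, NSH): ultracontractivity.  Proof: `f_k = ⟪b k, f⟫`, `I = ∫ |f|`; if `I = 0`
then `f = 0 = u`.  For `s > 0` let `F s = Σ exp(-2 s om_k^2) f_k^2 ≤ ‖f‖^2`,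
`G_s = Σ om_k exp(-s om_k^2) f_k e_k` (summable as `x^2 exp(-2 s x^2)` is bounded), so `ι G_s` is
the value at time `s` of the semigroup, `‖ι G_s‖^2 = F s`,
`‖G_s‖^2 = Σ om_k^2 exp(-2 s om_k^2) f_k^2`, `∫ |ι G_s| ≤ I` (LSM).  NSH:
`‖G_s‖^2 ≥ κ' F(s)^(1 + 2/d)`, `κ' = κ I^(-4/d)`.  For `r < s`,
`exp(-2 r x) - exp(-2 s x) ≥ 2 (s - r) x exp(-2 s x)`, so `F r ≥ F s + 2 (s - r) ‖G_s‖^2`; with
`r = s / 2`: `s κ' F(s)^(1 + 2/d) ≤ F(s/2)`.  Let `M = sup_{0 < s ≤ t} s^(d/2) F(s) < ∞`.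
Then `s κ' F(s)^(1+2/d) ≤ M (s/2)^(-d/2)`, i.e. `(s^(d/2) F(s))^(1 + 2/d) ≤ M 2^(d/2) / κ'`, so
`M^(1 + 2/d) ≤ M 2^(d/2) / κ'`, `M ≤ (2^(d/2) / κ')^(d/2) = C I^2`.  So
`‖u‖^2 = F t ≤ C t^(-d/2) I^2`. -/
def UltStmt : Prop := ∀ (d : ℕ) (Ω : Set (En d)) (ι : VV Ω →L[ℝ] Lp ℝ 2 (mu Ω))
  (b : HilbertBasis ℕ ℝ (Lp ℝ 2 (mu Ω))) (e : HilbertBasis ℕ ℝ (VV Ω)) (om : ℕ → ℝ), 0 < d →
  Dom Ω → Emb2 Ω ι → Spec Ω ι b e om → ∃ C : ℝ, 0 < C ∧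
    ∀ (t : ℝ) (f u : Lp ℝ 2 (mu Ω)), 0 < t → Heat b om t f u →
      ‖u‖ ≤ C * t ^ (-((d : ℝ) / 4)) * ∫ x, |f x| ∂(mu Ω)

/-- LIN (uses ULT): from `L^2` to `L^∞`.  Proof: let `K = C t^(-d/4) ‖f‖` and
`A = {x | K < u x}`, `g = 1_A`, `w` the value at time `t` of the semigroup with datum `g`.
`∫_A u = ⟪u, g⟫ = Σ exp(-t om_k^2) f_k g_k = ⟪f, w⟫ ≤ ‖f‖ ‖w‖ ≤ K μ(A)` (ULT), so `A` is null;
the same for `- u`. -/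
def LinStmt : Prop := ∀ (d : ℕ) (Ω : Set (En d)) (ι : VV Ω →L[ℝ] Lp ℝ 2 (mu Ω))
  (b : HilbertBasis ℕ ℝ (Lp ℝ 2 (mu Ω))) (e : HilbertBasis ℕ ℝ (VV Ω)) (om : ℕ → ℝ), 0 < d →
  Dom Ω → Emb2 Ω ι → Spec Ω ι b e om → ∃ C : ℝ, 0 < C ∧
    ∀ (t : ℝ) (f u : Lp ℝ 2 (mu Ω)), 0 < t → Heat b om t f u →
      ∀ᵐ x ∂(mu Ω), |u x| ≤ C * t ^ (-((d : ℝ) / 4)) * ‖f‖

/-- LWU (uses LIN): local Weyl bound.  Proof: `n ≥ 1`, `t = om (n-1)^(-2)`, `T` the bounded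
operator of `L^2` multiplying the coefficients by `exp(-t om_k^2)`; `|T f| ≤ K ‖f‖` almost
everywhere, `K = C om(n-1)^(d/2)`, so `Σ_{k<n} (T b_k)^2 ≤ K^2` almost everywhere (`ae_sum_sq` in
`Helper72_BE01/Hsc.lean`), and `T b_k = exp(-t om_k^2) b_k`, `exp(-t om_k^2) ≥ exp(-1)` for
`k < n`. -/
def LwuStmt : Prop := ∀ (d : ℕ) (Ω : Set (En d)) (ι : VV Ω →L[ℝ] Lp ℝ 2 (mu Ω))
  (b : HilbertBasis ℕ ℝ (Lp ℝ 2 (mu Ω))) (e : HilbertBasis ℕ ℝ (VV Ω)) (om : ℕ → ℝ), 0 < d →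
  Dom Ω → Emb2 Ω ι → Spec Ω ι b e om → ∃ C : ℝ, 0 < C ∧
    ∀ n : ℕ, ∀ᵐ x ∂(mu Ω), ∑ k ∈ Finset.range n, (b k x) ^ 2 ≤ C * om (n - 1) ^ d

/-- LWL (uses BMP): many eigenvalues.  Proof: BMP with `n + 1` bumps; there is `a ≠ 0` such that
`w = Σ a_i ψ_i` satisfies `⟪b k, w⟫ = 0` for `k < n` (`n` linear equations, `n + 1` unknowns).
`w = ι W`, `W = Σ a_i ∇ψ_i`; `‖w‖^2 = Σ a_i^2 ∫ ψ_i^2 > 0`,
`‖W‖^2 = Σ a_i^2 ∫ |∇ψ_i|^2 ≤ C (n+1)^(2/d) ‖w‖^2`.  By `rel`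
`‖W‖^2 = Σ_k ⟪e k, W⟫^2 = Σ_k om_k^2 ⟪b k, w⟫^2 ≥ om_n^2 ‖w‖^2`. -/
def LwlStmt : Prop := ∀ (d : ℕ) (Ω : Set (En d)) (ι : VV Ω →L[ℝ] Lp ℝ 2 (mu Ω))
  (b : HilbertBasis ℕ ℝ (Lp ℝ 2 (mu Ω))) (e : HilbertBasis ℕ ℝ (VV Ω)) (om : ℕ → ℝ), 0 < d →
  Dom Ω → Emb2 Ω ι → Spec Ω ι b e om → ∃ C : ℝ, 0 < C ∧
    ∀ n : ℕ, om n ≤ C * ((n : ℝ) + 1) ^ (1 / (d : ℝ))

/-- GRW (uses LWU, LWL).  Proof: `om (n-1)^d ≤ C^d n` by LWL for `n ≥ 1`, so LWU gives the first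
claim.  Integrate LWU for `n + 1` over `Ω`: `n + 1 = Σ_{k ≤ n} ‖b k‖^2 ≤ C |Ω| om(n)^d`, the
lower bound of `om n`. -/
def GrwStmt : Prop := ∀ (d : ℕ) (Ω : Set (En d)) (ι : VV Ω →L[ℝ] Lp ℝ 2 (mu Ω))
  (b : HilbertBasis ℕ ℝ (Lp ℝ 2 (mu Ω))) (e : HilbertBasis ℕ ℝ (VV Ω)) (om : ℕ → ℝ), 0 < d →
  Dom Ω → Emb2 Ω ι → Spec Ω ι b e om →
  (∃ C : ℝ, ∀ n : ℕ, ∀ᵐ x ∂(mu Ω), ∑ k ∈ Finset.range n, (b k x) ^ 2 ≤ C * n) ∧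
  ∃ c C : ℝ, 0 < c ∧ 0 < C ∧ ∀ n : ℕ, c * ((n : ℝ) + 1) ^ (1 / (d : ℝ)) ≤ om n ∧
    om n ≤ C * ((n : ℝ) + 1) ^ (1 / (d : ℝ))

/-! ## Multiplication by a bounded function -/

/-- SHL: thin shells.  Proof: let `N x` be the least `k` with `x < om k`, so
`om k ≤ x ↔ k < N x`.  `N (2 Λ) ≤ (2 Λ / c)^(1/θ)` and `N Λ ≥ (Λ / C)^(1/θ) - 1`, so
`N (2 Λ) ≤ K N Λ` for `Λ` large.  For `m ≥ 1`, `Λ_j = Λ (1 + j / m)`,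
`Σ_{j<m} (N Λ_{j+1} - N Λ_j) ≤ N (2 Λ) ≤ K N Λ`, so some `j` has
`N Λ_{j+1} - N Λ_j ≤ (K / m) N Λ ≤ (K / m) N Λ_j`.  Let `s = N Λ_j`, `t = N Λ_{j+1}`:
`om (s-1) ≤ Λ_j` and `om t > Λ_{j+1} = Λ_j + Λ / m`.  For `i`: `m = i + 1`, `Λ = Λ_i ≥ (i+1)^2`
so large that `N Λ_i` is larger than the previous `s`; `w i = Λ_i / (i + 1)`. -/
def ShlStmt : Prop := ∀ (om : ℕ → ℝ) (c C θ : ℝ), Monotone om → 0 < c → 0 < C → 0 < θ →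
  (∀ n : ℕ, c * ((n : ℝ) + 1) ^ θ ≤ om n ∧ om n ≤ C * ((n : ℝ) + 1) ^ θ) →
  ∃ (s t : ℕ → ℕ) (w : ℕ → ℝ), StrictMono s ∧ (∀ i, 0 < s i) ∧ (∀ i, s i ≤ t i) ∧
    (∀ i, om (s i - 1) + w i ≤ om (t i)) ∧ Tendsto w atTop atTop ∧
    Tendsto (fun i => ((t i : ℝ) - s i) / s i) atTop (𝓝 0)

/-- PRD: product with a smooth function.  Proof: for a test function `ψ` of `Ω`, `f ψ` is a test
function with gradient `f ∇ψ + ψ ∇f`; `∇ψ_n → G` and `ψ_n → ι G` in `L^2`, `f` and `∇f` are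
bounded. -/
def PrdStmt : Prop := ∀ (d : ℕ) (Ω : Set (En d)) (ι : VV Ω →L[ℝ] Lp ℝ 2 (mu Ω)) (f : En d → ℝ),
  Dom Ω → Emb2 Ω ι → ContDiff ℝ ((⊤ : ℕ∞) : WithTop ℕ∞) f → HasCompactSupport f →
  ∀ G : VV Ω, ∃ G' : VV Ω, ι G' =ᵐ[mu Ω] (fun x => f x * ι G x) ∧
    (G' : Lp (En d) 2 (mu Ω)) =ᵐ[mu Ω]
      fun x => f x • (G : Lp (En d) 2 (mu Ω)) x + ι G x • gradient f x

/-- IBP: integration by parts.  Proof: `q` is the Laplacian of `f`.  For test functions `φ`, `ψ`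
the integral over the whole space of the divergence of `φ ψ ∇f` is zero:
`∫ φ ⟪∇f, ∇ψ⟫ + ψ ⟪∇f, ∇φ⟫ + φ ψ Δf = 0` (coordinate by coordinate:
`integral_mul_fderiv_eq_neg_fderiv_mul_of_integrable`, or `∫ ∂_i (φ ψ ∂_i f) = 0`).  Both sides
are continuous in `(G, H)`, and the gradients of the test functions are dense. -/
def IbpStmt : Prop := ∀ (d : ℕ) (Ω : Set (En d)) (ι : VV Ω →L[ℝ] Lp ℝ 2 (mu Ω)) (f : En d → ℝ),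
  Dom Ω → Emb2 Ω ι → ContDiff ℝ ((⊤ : ℕ∞) : WithTop ℕ∞) f → HasCompactSupport f →
  ∃ (q : En d → ℝ) (M : ℝ), Continuous q ∧ (∀ x, |q x| ≤ M) ∧ ∀ G H : VV Ω,
    ∫ x, ι G x * ⟪gradient f x, (H : Lp (En d) 2 (mu Ω)) x⟫_ℝ +
      ι H x * ⟪gradient f x, (G : Lp (En d) 2 (mu Ω)) x⟫_ℝ + ι G x * ι H x * q x ∂(mu Ω) = 0

/-- COM (uses PRD, IBP): the commutator.  Proof: let `G_k = om_k e_k`; by `rel` `ι G_k = b k`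
and `⟪G_k, P⟫ = om_k^2 ⟪b k, ι P⟫` for all `P : VV Ω`.  PRD for `G_k` and for `G_l` gives
`P_k`, `P_l` with `ι P_k = f b_k`, `P_k = f G_k + b_k ∇f` etc.  Then
`om_l^2 ∫ f b_k b_l = ⟪P_k, G_l⟫ = ∫ f ⟪G_k, G_l⟫ + ∫ b_k ⟪∇f, G_l⟫` and
`om_k^2 ∫ f b_k b_l = ⟪G_k, P_l⟫ = ∫ f ⟪G_k, G_l⟫ + ∫ b_l ⟪∇f, G_k⟫`; the difference, and IBP:
`(om_l^2 - om_k^2) ∫ f b_k b_l = ∫ b_k ⟪∇f, G_l⟫ - ∫ b_l ⟪∇f, G_k⟫ =
∫ b_l (- 2 ⟪∇f, G_k⟫ - b_k q)`.  `h = - 2 ⟪∇f, G_k⟫ - b_k q`, `‖G_k‖ = om_k`. -/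
def ComStmt : Prop := ∀ (d : ℕ) (Ω : Set (En d)) (ι : VV Ω →L[ℝ] Lp ℝ 2 (mu Ω))
  (b : HilbertBasis ℕ ℝ (Lp ℝ 2 (mu Ω))) (e : HilbertBasis ℕ ℝ (VV Ω)) (om : ℕ → ℝ)
  (f : En d → ℝ), Dom Ω → Emb2 Ω ι → Spec Ω ι b e om →
  ContDiff ℝ ((⊤ : ℕ∞) : WithTop ℕ∞) f → HasCompactSupport f → ∃ K : ℝ, 0 ≤ K ∧
    ∀ k, ∃ h : Lp ℝ 2 (mu Ω), ‖h‖ ≤ K * (om k + 1) ∧
      ∀ l, ⟪h, b l⟫_ℝ = (om l ^ 2 - om k ^ 2) * ∫ x, f x * b k x * b l x ∂(mu Ω)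

/-- ITR (uses GRW, SHL, COM).  Proof: GRW, SHL with `θ = 1/d` give `s`, `t`, `w`.  For bounded
measurable `f` let `E_s(f) = Σ_{k<s} (∫ (f b_k)^2 - Σ_{l<s} (∫ f b_k b_l)^2)`, the sum of the
squares of the distances of `f b_k` to the span of the `b_l`, `l < s`.  So (a)
`0 ≤ E_s(f) ≤ 2 E_s(g) + 2 E_s(f - g)`; (b) `E_s(f) ≤ Σ_{k<s} ∫ f^2 b_k^2 ≤ C s ∫ f^2` (GRW);
(c) for `f` smooth with compact support, `|f| ≤ M`, with `s = s_i`, `t = t_i`: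
`E_s(f) = Σ_{k<s} Σ_{l≥s} (∫ f b_k b_l)^2 ≤ Σ_{s≤l<t} ‖f b_l‖^2 + Σ_{k<s} Σ_{l≥t} (∫ f b_k b_l)^2`;
the first sum is at most `M^2 (t - s)`; in the second, for `k < s ≤ t ≤ l`,
`om_l^2 - om_k^2 ≥ (om_t - om_k) (om_t + om_k) ≥ w om_t`, so by COM and Bessel it is at most
`s K^2 (om_t + 1)^2 / (w om_t)^2`.  So `E_s(f) / s → 0`.  For general `f` choose `g` smooth with
compact support in `Ω` and `∫ (f - g)^2 ≤ ε` (`dns`); (a), (b), (c) give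
`limsup E_s(f) / s ≤ 2 C ε`. -/
def ItrStmt : Prop := ∀ (d : ℕ) (Ω : Set (En d)) (ι : VV Ω →L[ℝ] Lp ℝ 2 (mu Ω))
  (b : HilbertBasis ℕ ℝ (Lp ℝ 2 (mu Ω))) (e : HilbertBasis ℕ ℝ (VV Ω)) (om : ℕ → ℝ), 0 < d →
  Dom Ω → Emb2 Ω ι → Spec Ω ι b e om →
  ∃ s : ℕ → ℕ, StrictMono s ∧ ∀ f : En d → ℝ, Measurable f → (∃ M : ℝ, ∀ x, |f x| ≤ M) →
    Tendsto (fun i => (1 / (s i : ℝ)) * ∑ k ∈ Finset.range (s i),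
      (∫ x, (f x * b k x) ^ 2 ∂(mu Ω) -
        ∑ l ∈ Finset.range (s i), (∫ x, f x * b k x * b l x ∂(mu Ω)) ^ 2)) atTop (𝓝 0)

/-! ## Assembly -/

/-- INP (uses LPE, GRW, ITR): the input of the core.  Proof of `i4`: `p = al + 3` if `d ≤ 2`,
`p = 2 d / (d - 2) > al + 2` if `d ≥ 3`; `Σ_{k<n} c_k b_k = ι (Σ_{k<n} c_k om_k e_k)` by `rel`,
and LPE. -/
def InpStmt : Prop := ∀ (d : ℕ) (Ω : Set (En d)) (ι : VV Ω →L[ℝ] Lp ℝ 2 (mu Ω))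
  (b : HilbertBasis ℕ ℝ (Lp ℝ 2 (mu Ω))) (e : HilbertBasis ℕ ℝ (VV Ω)) (om : ℕ → ℝ) (al : ℝ),
  0 < d → Dom Ω → Emb2 Ω ι → Spec Ω ι b e om → 0 < al → ((d : ℝ) - 2) * al < 4 →
  Inp (mu Ω) al b om

/-- TRW (uses LPE): the weak equation, from the equations of the coefficients.  Notation
`c1_k(t) = ⟪b k, z1 t⟫`, `c2_k(t) = ⟪b k, z2 t⟫`, `G t = UU b e (z1 t)`, so
`⟪e k, G t⟫ = c1_k(t)`.  Let `ψ` be a test function, `P : VV Ω` the class of its gradient,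
`p_k = ⟪b k, ψ⟫`, so `⟪e k, P⟫ = om_k p_k` (`rel`).  Multiply `m2` by `p_k` and sum over
`k < n`; `n → ∞`.  `Σ_{k<n} p_k c2_k(t) → ∫ z2(t) ψ`.  `Σ_{k<n} p_k om_k c1_k(s) → ⟪G s, P⟫`,
bounded by `‖G s‖ ‖P‖`, `G` continuous: dominated convergence in `s`.  With
`P_n = Σ_{k<n} ⟪e k, P⟫ e k`, `ψ_n = ι P_n = Σ_{k<n} p_k b_k`: by LPE, for `q = al + 2` (or the
exponent of LPE, and Hölder) `‖ψ_n - ψ‖_q ≤ C ‖P_n - P‖ → 0`, so by Hölder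
`|∫ gf(z2 s) (ψ_n - ψ)| ≤ a ‖z2 s‖_(al+2)^(al+1) ‖ψ_n - ψ‖_(al+2)`, and
`∫_0^t ‖z2 s‖_(al+2)^(al+1) ds ≤ ∫_0^t (1 + ∫ |z2 s|^(al+2)) ds < ∞` by `en`.  The function
`s ↦ ∫ gf(z2 s) ψ` is the limit almost everywhere of the measurable functions with `ψ_n`
(`gint`), and is bounded by an integrable function: `gint` for `ψ`. -/
def TrwStmt : Prop := ∀ (d : ℕ) (Ω : Set (En d)) (ι : VV Ω →L[ℝ] Lp ℝ 2 (mu Ω))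
  (b : HilbertBasis ℕ ℝ (Lp ℝ 2 (mu Ω))) (e : HilbertBasis ℕ ℝ (VV Ω)) (om : ℕ → ℝ) (a al : ℝ)
  (z1 z2 : ℝ → Lp ℝ 2 (mu Ω)), 0 < d → Dom Ω → Emb2 Ω ι → Spec Ω ι b e om → 0 < a → 0 < al →
  ((d : ℝ) - 2) * al < 4 → CoreSol (mu Ω) a al b om z1 z2 → ∀ ψ, Tst Ω ψ → ∀ t, 0 ≤ t →
    IntervalIntegrable (fun s => ∫ x, gf a al (z2 s x) * ψ x ∂(mu Ω)) volume 0 t ∧
    ∫ x, z2 t x * ψ x ∂(mu Ω) = ∫ x, z2 0 x * ψ x ∂(mu Ω) -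
      ∫ s in (0:ℝ)..t, (∫ x, ⟪((UU b e (z1 s) : VV Ω) : Lp (En d) 2 (mu Ω)) x, gradient ψ x⟫_ℝ
        ∂(mu Ω) + ∫ x, gf a al (z2 s x) * ψ x ∂(mu Ω))

/-- TRL (uses TRW): translation to the domain.  Proof: `dom` from `Grf`; `G_cont`: isometry;
`du`: the coefficients of both sides agree, `⟪b k, ι (G t)⟫ = om_k^(-1) c1_k(t)` (`rel`) and `m1`
(the integral in `L^2` of the continuous `z2` commutes with `⟪b k, ·⟫`); `en`: `energy = enr`,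
as `energy Ω v G t = ‖v t‖^2 + ‖G t‖^2`. -/
def TrlStmt : Prop := ∀ (d : ℕ) (Ω : Set (En d)) (ι : VV Ω →L[ℝ] Lp ℝ 2 (mu Ω))
  (b : HilbertBasis ℕ ℝ (Lp ℝ 2 (mu Ω))) (e : HilbertBasis ℕ ℝ (VV Ω)) (om : ℕ → ℝ) (a al : ℝ)
  (z1 z2 : ℝ → Lp ℝ 2 (mu Ω)), 0 < d → Dom Ω → Emb2 Ω ι → Grf Ω ι → Spec Ω ι b e om → 0 < a →
  0 < al → ((d : ℝ) - 2) * al < 4 → CoreSol (mu Ω) a al b om z1 z2 →
    EnSol Ω a al (fun t => ι (UU b e (z1 t))) z2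
      (fun t => ((UU b e (z1 t) : VV Ω) : Lp (En d) 2 (mu Ω))) ∧
    ∀ t, energy Ω z2 (fun t => ((UU b e (z1 t) : VV Ω) : Lp (En d) 2 (mu Ω))) t =
      enr (mu Ω) z1 z2 t

/-- FIN (uses EMP, EIG, INP, TRL and `CoreStmt`): the result.

First part: density of the data whose solutions have the two-sided bound on a set of times of
positive lower logarithmic density.  Proof: given `(u₀, G₀) ∈ H10 Ω`, so `u₀ = ι G₀`, and `v₀`: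
`CoreStmt` with `x = (UU b e).symm G₀`, `y = v₀` and `ε' ≤ ε` with `‖ι‖ ε' ≤ ε`; TRL.

Second part: the `G_δ`.  `D = {(u, G, v) | (u, G) ∈ H10 Ω and ((UU b e).symm G, v) ∈ D₀}`.
`H10 Ω` is closed, and homeomorphic to `VV Ω`, so to `Lp ℝ 2 (mu Ω)`, through
`(u, G) ↦ (UU b e).symm G`, with inverse `x ↦ (ι (UU b e x), UU b e x)`; a closed subset is
`G_δ`, and `D` is the intersection of open sets of the closed set `H10 Ω × L^2`, hence `G_δ`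
(a relatively open subset of a closed set of a metric space is the intersection of an open set
and a `G_δ`). -/
def FinStmt : Prop := ∀ (d : ℕ) (Ω : Set (En d)) (a α : ℝ), 0 < d → Dom Ω → 0 < a → 0 < α →
  ((d : ℝ) - 2) * α < 4 → ∃ c C g : ℝ, 0 < c ∧ 0 < C ∧ 0 < g ∧
    (∀ (u₀ v₀ : Lp ℝ 2 (mu Ω)) (G₀ : Lp (En d) 2 (mu Ω)) (ε : ℝ), (u₀, G₀) ∈ H10 Ω → 0 < ε →
      ∃ (u v : ℝ → Lp ℝ 2 (mu Ω)) (G : ℝ → Lp (En d) 2 (mu Ω)), EnSol Ω a α u v G ∧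
        ‖u 0 - u₀‖ < ε ∧ ‖G 0 - G₀‖ < ε ∧ ‖v 0 - v₀‖ < ε ∧
        (∃ M : ℝ, ∀ t, 0 ≤ t → energy Ω v G t ≤ M * (1 + t) ^ (-(2 / α))) ∧
        (∀ᶠ t : ℝ in atTop, energy Ω v G t ≤ C * t ^ (-(2 / α))) ∧
        LowLog {t | c * t ^ (-(2 / α)) ≤ energy Ω v G t} g) ∧
    ∃ D : Set (Lp ℝ 2 (mu Ω) × Lp (En d) 2 (mu Ω) × Lp ℝ 2 (mu Ω)), IsGδ D ∧
      D ⊆ {P | (P.1, P.2.1) ∈ H10 Ω} ∧ {P | (P.1, P.2.1) ∈ H10 Ω} ⊆ closure D ∧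
      ∀ P ∈ D, ∃ (u v : ℝ → Lp ℝ 2 (mu Ω)) (G : ℝ → Lp (En d) 2 (mu Ω)), EnSol Ω a α u v G ∧
        (u 0, G 0, v 0) = P ∧ ∃ᶠ t : ℝ in atTop, c * t ^ (-(2 / α)) ≤ energy Ω v G t

end

end Pool.Agent.BEL
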