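import Pool.Agent.BEL.Defs

/-!
# Squad BEL (MP_be01ff_an), part U: the universal upper bound

`(N - 2) α < 4` enters only through `Inp.i4` with `p > α + 2`.  Final statement `UbdStmt`: for
every core solution `enr ≤ M (1+t)^(-2/α)` and, for large `t`, `enr ≤ C t^(-2/α)` with a constant `C`
which does not depend on the solution.

Statement and other results of helper61 which are proved (files `Helper61_BEL`): Lemma A with the
counting (`LemA.lean`), Ekeland (`Eke.lean`), absorption inequality (`Abs.lean`).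
-/

namespace Pool.Agent.BEL

open Set Filter Topology MeasureTheory
open scoped InnerProductSpace ENNReal

noncomputable section

/-- The dissipation integral `∫ |z2 r|^q`, as an extended number. -/
def DisE {X : Type} [MeasurableSpace X] (μ : Measure X) (q : ℝ) (z2 : ℝ → Lp ℝ 2 μ) (r : ℝ) :
    ℝ≥0∞ := ∫⁻ x, ENNReal.ofReal (|z2 r x| ^ q) ∂μ

/-- The same as a real number. -/
def Dis {X : Type} [MeasurableSpace X] (μ : Measure X) (q : ℝ) (z2 : ℝ → Lp ℝ 2 μ) (r : ℝ) : ℝ :=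
  (DisE μ q z2 r).toReal

/-- UME (80 lines). Measurability in time of `∫ |z r|^q`.

PROOF. `N_n(f) = ∫⁻ ofReal ((min |f x| n)^q)` is a continuous function of `f ∈ L²` for every `n`:
if `f_j → f` in `L²`, then (by contradiction, subsequences) a subsequence converges a.e.
(`TendstoInMeasure.exists_seq_tendsto_ae`), dominated convergence with the constant `n^q`
(`μ` finite); or: `s ↦ (min |s| n)^q` is bounded and uniformly continuous.  `∫⁻ |f|^q = sup_n N_n(f)`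
(monotone convergence, `lintegral_iSup`), so `f ↦ ∫⁻ ofReal (|f|^q)` is lower semicontinuous, hence
measurable (`LowerSemicontinuous.measurable`), or measurable as a supremum; compose with `z`, which
is continuous on `Ici 0` (`ContinuousOn.aemeasurable`; the composition of a lower semicontinuous
function with a function which is continuous on `Ici 0` is measurable on `Ici 0`). -/
def UmeStmt : Prop := ∀ (X : Type) [MeasurableSpace X] (μ : Measure X) [IsFiniteMeasure μ]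
  (q : ℝ), 0 < q → ∀ z : ℝ → Lp ℝ 2 μ, ContinuousOn z (Ici 0) →
  AEMeasurable (DisE μ q z) (volume.restrict (Ici (0:ℝ)))

/-- UEN (100 lines; uses UME). The energy inequality with real numbers.

PROOF. `CoreSol.en` on `[s, t]`: `∫⁻_(Icc s t) DisE ≤ ofReal (enr s) / ofReal (2 a) < ∞`, so `DisE < ∞`
a.e. on `[s,t]` (`ae_lt_top'`, UME) and `∫ Dis = (∫⁻ DisE).toReal` (`integral_toReal`);
`IntervalIntegrable` from the finiteness.  Then `2 a ∫ Dis ≤ enr s - enr t` by `ENNReal.toReal` of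
`en` (`enr ≥ 0`).  The last claim: `DisE < ∞` a.e. -/
def UenStmt : Prop := ∀ (X : Type) [MeasurableSpace X] (μ : Measure X) (a al : ℝ)
  (b : HilbertBasis ℕ ℝ (Lp ℝ 2 μ)) (om : ℕ → ℝ), 0 < a → 0 < al → Inp μ al b om →
  ∀ z1 z2 : ℝ → Lp ℝ 2 μ, CoreSol μ a al b om z1 z2 →
  (∀ s t, 0 ≤ s → s ≤ t → IntervalIntegrable (Dis μ (al + 2) z2) volume s t ∧
    2 * a * ∫ r in s..t, Dis μ (al + 2) z2 r ≤ enr μ z1 z2 s - enr μ z1 z2 t) ∧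
  (∀ᵐ r ∂(volume.restrict (Ici (0:ℝ))), DisE μ (al + 2) z2 r < ⊤)

/-- UHO (60 lines; uses UEN). The `L²` norm and the dissipation.

PROOF. For a.e. `r`: `‖z2 r‖² = ∫ |z2 r|² ≤ μ(X)^(al/(al+2)) Dis^(2/(al+2))` (Hölder in `X`, or
`eLpNorm_le_eLpNorm_mul_rpow_measure_univ` with `2 ≤ al + 2`), then Hölder in time with the
exponents `(al+2)/2`, `(al+2)/al` (`MeasureTheory.integral_mul_le_Lp_mul_Lq_of_nonneg`, or Jensen for
the concave function `x^(2/(al+2))`). `C = μ(X)^(al/(al+2))`. -/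
def UhoStmt : Prop := ∀ (X : Type) [MeasurableSpace X] (μ : Measure X) (a al : ℝ)
  (b : HilbertBasis ℕ ℝ (Lp ℝ 2 μ)) (om : ℕ → ℝ), 0 < a → 0 < al → Inp μ al b om →
  ∃ C : ℝ, 0 ≤ C ∧ ∀ z1 z2 : ℝ → Lp ℝ 2 μ, CoreSol μ a al b om z1 z2 →
  ∀ s t, 0 ≤ s → s ≤ t → ∫ r in s..t, ‖z2 r‖ ^ 2 ≤
    C * (t - s) ^ (al / (al + 2)) * (∫ r in s..t, Dis μ (al + 2) z2 r) ^ (2 / (al + 2))

/-- UPR (50 lines). Product rule for integrated equations.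

PROOF. `x(t) = x(s) + ∫_s^t x'`, `y(t) = y(s) + ∫_s^t y'` with `x'` continuous on `[s, T]` and `y'`
integrable.  Integration by parts for absolutely continuous functions: Fubini on the triangle
(`intervalIntegral` of `∫_s^t x'(r) ∫_s^r y'(q) dq dr + ∫_s^t y'(q) ∫_s^q x'(r) dr dq = ∫ x' ∫ y'`);
see whether Mathlib has `AbsolutelyContinuousOnInterval.integral_mul_deriv_eq_deriv_mul`. -/
def UprStmt : Prop := ∀ (x y x' y' : ℝ → ℝ) (s t : ℝ), s ≤ t →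
  IntervalIntegrable x' volume s t → IntervalIntegrable y' volume s t →
  (∀ r, s ≤ r → r ≤ t → x r = x s + ∫ q in s..r, x' q) →
  (∀ r, s ≤ r → r ≤ t → y r = y s + ∫ q in s..r, y' q) →
  x t * y t - x s * y s = ∫ r in s..t, (x' r * y r + x r * y' r)

/-- UGH (80 lines; uses UEN). The damping term against a finite sum.

PROOF. For a.e. `r ≥ 0`: `z2 r ∈ L^(al+2)`, so `g(z2) ∈ L^((al+2)/(al+1))` with
`∫ |g(z2)|^((al+2)/(al+1)) = a^(..) Dis`, and `u_n = ∑ (c k / om k) b k` is in `L^(al+2)` with norm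
`≤ C (∑ c k²)^(1/2)`: `i4` (coefficients `c k / om k`) and `‖u‖_(al+2) ≤ μ(X)^(..) ‖u‖_p`.  Hölder
(`integral_mul_norm_le_Lp_mul_Lq` or with `eLpNorm`); the sum of the integrals is the integral of
the sum (all terms integrable). -/
def UghStmt : Prop := ∀ (X : Type) [MeasurableSpace X] (μ : Measure X) (a al : ℝ)
  (b : HilbertBasis ℕ ℝ (Lp ℝ 2 μ)) (om : ℕ → ℝ), 0 < a → 0 < al → Inp μ al b om →
  ∃ C : ℝ, 0 ≤ C ∧ ∀ f : Lp ℝ 2 μ, ∫⁻ x, ENNReal.ofReal (|f x| ^ (al + 2)) ∂μ < ⊤ →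
  ∀ (n : ℕ) (c : ℕ → ℝ),
    |∑ k ∈ Finset.range n, c k / om k * ∫ x, gf a al (f x) * b k x ∂μ| ≤
      C * (∫⁻ x, ENNReal.ofReal (|f x| ^ (al + 2)) ∂μ).toReal ^ ((al + 1) / (al + 2)) *
        Real.sqrt (∑ k ∈ Finset.range n, c k ^ 2)

/-- UMI (STRONG, 120 lines; uses UEN, UPR, UGH). The multiplier `u`.

PROOF. `p_k = ⟪b k, z1⟫`, `q_k = ⟪b k, z2⟫`, `G_k = ∫ g(z2) b k`.  UPR with `m1`, `m2`:
`p_k q_k (t) - p_k q_k (s) = ∫_s^t (om k q_k² - om k p_k² - p_k G_k)`.  Divide by `om k`, sum over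
`k < n`: `∫ ∑ p_k² = ∫ ∑ q_k² - [∑ p_k q_k / om k] - ∫ ∑ (p_k / om k) G_k`.
`|∑ p_k q_k / om k| ≤ enr / (2 om 0)` (Bessel, `om 0 ≤ om k`), `enr t ≤ enr s`; UGH with `c = p_k(r)`:
the last integrand is at most `C Dis^((al+1)/(al+2)) ‖z1 r‖ ≤ C Dis^(..) sqrt (enr s)`, Hölder in time
(exponents `(al+2)/(al+1)`, `al+2`).  `n → ∞`: `∑_(k<n) p_k² ↑ ‖z1‖²` (Parseval,
`HilbertBasis.hasSum_...`), monotone (or dominated, bound `enr s`) convergence;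
`∑_(k<n) q_k² ≤ ‖z2‖²`. -/
def UmiStmt : Prop := ∀ (X : Type) [MeasurableSpace X] (μ : Measure X) (a al : ℝ)
  (b : HilbertBasis ℕ ℝ (Lp ℝ 2 μ)) (om : ℕ → ℝ), 0 < a → 0 < al → Inp μ al b om →
  ∃ C : ℝ, 0 ≤ C ∧ ∀ z1 z2 : ℝ → Lp ℝ 2 μ, CoreSol μ a al b om z1 z2 →
  ∀ s t, 0 ≤ s → s ≤ t → (∫ r in s..t, ‖z1 r‖ ^ 2) ≤ (∫ r in s..t, ‖z2 r‖ ^ 2) +
    enr μ z1 z2 s / om 0 + C * (t - s) ^ (1 / (al + 2)) *
      (∫ r in s..t, Dis μ (al + 2) z2 r) ^ ((al + 1) / (al + 2)) * Real.sqrt (enr μ z1 z2 s)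

/-- The window inequality for a function `E`. -/
def Win (al K τ : ℝ) (E : ℝ → ℝ) : Prop :=
  (∀ t, 0 ≤ t → 0 ≤ E t) ∧ (∀ s t, 0 ≤ s → s ≤ t → E t ≤ E s) ∧
  ∀ s, 0 ≤ s → E (s + τ) ≤ K * ((E s - E (s + τ)) ^ (2 / (al + 2)) + (E s - E (s + τ)) +
    (E s - E (s + τ)) ^ ((al + 1) / (al + 2)) * Real.sqrt (E s))

/-- UWI (60 lines; uses UEN, UHO, UMI). The energy satisfies the window inequality.

PROOF. `τ = 1 / om 0 + 1`, `t = s + τ`, `δ = enr s - enr t`, `Δ = ∫ Dis ≤ δ / (2 a)`.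
`τ enr t ≤ ∫_s^t enr = ∫ ‖z1‖² + ∫ ‖z2‖² ≤ 2 ∫ ‖z2‖² + (enr t + δ) / om 0 + C ...`, so
`enr t ≤ 2 C' τ^(..) Δ^(2/(al+2)) + δ / om 0 + C τ^(..) Δ^((al+1)/(al+2)) sqrt (enr s)`, and `Δ ≤ δ/(2a)`
with monotonicity of the powers. -/
def UwiStmt : Prop := ∀ (X : Type) [MeasurableSpace X] (μ : Measure X) (a al : ℝ)
  (b : HilbertBasis ℕ ℝ (Lp ℝ 2 μ)) (om : ℕ → ℝ), 0 < a → 0 < al → Inp μ al b om →
  ∃ K τ : ℝ, 0 < K ∧ 0 < τ ∧ ∀ z1 z2 : ℝ → Lp ℝ 2 μ, CoreSol μ a al b om z1 z2 →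
    Win al K τ (enr μ z1 z2)

/-- UDI (120 lines). Nakao's lemma with a universal constant.

PROOF. `δ(s) = E s - E (s+τ) ≥ 0`.  `sqrt (E s) ≤ sqrt (E (s+τ)) + sqrt δ` and
`K δ^β sqrt (E(s+τ)) ≤ E(s+τ)/2 + K² δ^(2β)/2`, `β = (al+1)/(al+2)`, so
`E(s+τ) ≤ F(δ) = 2K(δ^(2/(al+2)) + δ + δ^(β+1/2)) + K² δ^(2β)`.  `e_n = E(nτ)` is nonincreasing and
nonnegative, so `δ_n → 0` and `e_n → 0`.  If `δ_n ≤ 1`: all exponents are `≥ 2/(al+2)`, so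
`e_(n+1) ≤ K' δ_n^(2/(al+2))`, `K' = 6K + K²`, `e_(n+1)^(1+al/2) ≤ K'^(1+al/2) (e_n - e_(n+1))`.  If `e_n ≤ 1`
also (all `n ≥ n0`), then `e_(n+1)^(-al/2) - e_n^(-al/2) ≥ c` (or `e_(n+1) = 0`, then `E = 0` later):
if `e_(n+1) ≤ e_n/2` it is `≥ (2^(al/2) - 1) e_n^(-al/2) ≥ 2^(al/2) - 1`, otherwise (mean value theorem)
`≥ (al/2) e_n^(-al/2-1) (e_n - e_(n+1)) ≥ (al/2) (2 e_(n+1))^(-1-al/2) e_(n+1)^(1+al/2)/K'^(1+al/2)`.  So
`e_n ≤ (c (n - n0))^(-2/al)` for `n > n0`, and for `t ∈ [nτ, (n+1)τ]` `E t ≤ e_n`, `n - n0 ≥ t/(2τ)` for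
large `t`: `C = (c/(2τ))^(-2/al)`.  The first claim: for `t ≥ T` from the second, for `t ≤ T` by
`E t ≤ E 0`. -/
def UdiStmt : Prop := ∀ al K τ : ℝ, 0 < al → 0 < K → 0 < τ → ∃ C : ℝ, 0 < C ∧ ∀ E : ℝ → ℝ,
  Win al K τ E → (∃ M : ℝ, ∀ t, 0 ≤ t → E t ≤ M * (1 + t) ^ (-(2 / al))) ∧
    ∀ᶠ t : ℝ in atTop, E t ≤ C * t ^ (-(2 / al))

/-- UBD (10 lines; uses UWI, UDI). The universal upper bound. -/
def UbdStmt : Prop := ∀ (X : Type) [MeasurableSpace X] (μ : Measure X) (a al : ℝ)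
  (b : HilbertBasis ℕ ℝ (Lp ℝ 2 μ)) (om : ℕ → ℝ), 0 < a → 0 < al → Inp μ al b om →
  ∃ C : ℝ, 0 < C ∧ ∀ z1 z2 : ℝ → Lp ℝ 2 μ, CoreSol μ a al b om z1 z2 →
    (∃ M : ℝ, ∀ t, 0 ≤ t → enr μ z1 z2 t ≤ M * (1 + t) ^ (-(2 / al))) ∧
    ∀ᶠ t : ℝ in atTop, enr μ z1 z2 t ≤ C * t ^ (-(2 / al))

end

end Pool.Agent.BEL
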