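import Pool.Agent.BEL.StmtsD
import Pool.Agent.BEL.StmtsU
import Pool.Agent.BEL.Defs2

/-!
# Squad BEL (MP_be01ff_an), uniqueness of the core solutions (weak-strong argument)
-/

namespace Pool.Agent.BEL

open MeasureTheory Filter Topology Set
open scoped InnerProductSpace ENNReal

noncomputable section

/-- WPI (pointwise). `q = al + 2`.  `(g z - gl v)(z - v) = (g z - g v)(z - v) + (g v - gl v)(z - v)`,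
the first term is nonnegative, `|g v - gl v| ≤ a |v|^(al+1) 1_(|v| > l)`; for `|v| > l`:
`a |v|^(al+1) |z| ≤ a K^(-(al+1)) |z|^q + a K |v|^q` (cases `|z| ≥ K |v|`, `|z| < K |v|`) and
`|v|^q ≤ l^(q-p) |v|^p`. -/
def WpiStmt : Prop := ∀ a al l K p z v : ℝ, 0 < a → 0 < al → 0 < l → 0 < K → al + 2 < p →
  -(a * (K ^ (-(al + 1)) * |z| ^ (al + 2) + (K + 1) * (l ^ (al + 2 - p) * |v| ^ p))) ≤
    (gf a al z - gl a al l v) * (z - v)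

/-- XID (STRONG). The cross identity of a core solution `z` and of a flow `U t = W t (Z t)` of
level `l` with `P2 U = R x`, `x` bounded.

PROOF. `p_k = ⟪b k, z1⟫`, `q_k = ⟪b k, z2⟫`, `G_k = ∫ g(z2) b k`; `P_k, Q_k` the coordinates of `U`:
`P_k' = om k Q_k`, `Q_k' = - om k P_k - F_k`, `F_k = ⟪b k, nem gl (P2 U)⟫` (COO; everything continuous).
UPR (twice) and `m1`, `m2`: `p_k P_k + q_k Q_k` at `t` minus at `0` is `- ∫_0^t (G_k Q_k + q_k F_k)`.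
Sum over `k < n`, `n → ∞`.  Left side: `b.hasSum_inner_mul_inner` for both components.
`∑_(k<n) q_k F_k → ⟪z2, nem gl (P2 U)⟫` for every `s`, bounded by `‖z2‖ ‖nem ..‖` (Cauchy-Schwarz,
Bessel), dominated convergence.  `∑_(k<n) G_k Q_k = ∫ g(z2) P_n(P2 U)`, `P_n` = projection on the
first `n` coordinates, `P_n R x = R P_n x`, and `‖R (x - P_n x)‖_(L^(al+2)) ≤ C ‖x - P_n x‖ → 0`
(`emb`, `μ` finite), `‖R P_n x‖_(L^(al+2)) ≤ C M`; Hölder with `∫ |g(z2)|^((al+2)/(al+1)) =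
a^.. Dis`: for a.e. `s` convergence to `∫ g(z2) P2 U`, bounded by `C M Dis^((al+1)/(al+2)) ≤
C M (1 + Dis)`, integrable (UEN).  Measurability in `s`: limits of measurable functions
(`G_k` by `gint`). -/
def XidStmt : Prop := ∀ (X : Type) [MeasurableSpace X] (μ : Measure X) [IsFiniteMeasure μ]
  (a al : ℝ) (b : HilbertBasis ℕ ℝ (Lp ℝ 2 μ)) (om : ℕ → ℝ)
  (R : Lp ℝ 2 μ →L[ℝ] Lp ℝ 2 μ) (W : ℝ → KK (Lp ℝ 2 μ) →L[ℝ] KK (Lp ℝ 2 μ))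
  (Js : ℕ → Finset ℕ), Cor μ a al b om R W Js → Inp μ al b om →
  ∀ z1 z2 : ℝ → Lp ℝ 2 μ, CoreSol μ a al b om z1 z2 →
  ∀ (l M : ℝ) (V : KK (Lp ℝ 2 μ)) (Z : ℝ → KK (Lp ℝ 2 μ)), 0 < l →
  IsFl W (nem μ (gl a al l)) V Z →
  (∀ t, 0 ≤ t → ∃ x : Lp ℝ 2 μ, P2 (W t (Z t)) = R x ∧ ‖x‖ ≤ M) → ∀ t, 0 ≤ t →
  IntervalIntegrable (fun s => ∫ y, gf a al (z2 s y) * P2 (W s (Z s)) y ∂μ) volume 0 t ∧
  ⟪z1 t, P1 (W t (Z t))⟫_ℝ + ⟪z2 t, P2 (W t (Z t))⟫_ℝ =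
    ⟪z1 0, P1 V⟫_ℝ + ⟪z2 0, P2 V⟫_ℝ -
    ((∫ s in (0 : ℝ)..t, ∫ y, gf a al (z2 s y) * P2 (W s (Z s)) y ∂μ) +
      ∫ s in (0 : ℝ)..t, ⟪z2 s, nem μ (gl a al l) (P2 (W s (Z s)))⟫_ℝ)

/-- WSU (STRONG). Weak-strong comparison.

PROOF. `V` has finitely many modes.  For the level `l = n ≥ 1`: `v = P2 (W s (Z n V s)) = R x`,
`‖x‖ ≤ M`, `M` independent of `n` and `s` (REG, NEB: `P2 V` bounded), so `∫ |v|^p ≤ M'` (`emb`).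
`‖z - U‖² = ‖z‖² + ‖U‖² - 2 ⟪z, U⟫ ≤ ‖z 0 - V‖² - 2 ∫_0^t (a Dis + ⟪nem v, v⟫ - ∫ g(z2) v -
⟪z2, nem v⟫)` (UEN, FLP, XID), and for a.e. `s` the integrand is `∫ (g(z2) - gl v)(z2 - v) ≥
- a (K^(-(al+1)) Dis + (K+1) n^(al+2-p) M')` (WPI integrated).  So
`‖z t - U t‖² ≤ ‖z 0 - V‖² + 2 a (K^(-(al+1)) ∫_0^t Dis + (K+1) n^(al+2-p) M' t)`: `n → ∞`
(`U t → S t V`), then `K → ∞`. -/
def WsuStmt : Prop := ∀ (X : Type) [MeasurableSpace X] (μ : Measure X) [IsFiniteMeasure μ]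
  (a al : ℝ) (b : HilbertBasis ℕ ℝ (Lp ℝ 2 μ)) (om : ℕ → ℝ)
  (R : Lp ℝ 2 μ →L[ℝ] Lp ℝ 2 μ) (W : ℝ → KK (Lp ℝ 2 μ) →L[ℝ] KK (Lp ℝ 2 μ))
  (Js : ℕ → Finset ℕ), Cor μ a al b om R W Js → Inp μ al b om → ∀ Z S,
  IsLim W (fun n : ℕ => nem μ (gl a al n)) Z S →
  ∀ z1 z2 : ℝ → Lp ℝ 2 μ, CoreSol μ a al b om z1 z2 → ∀ (J : Finset ℕ) (V : KK (Lp ℝ 2 μ)),
  (∀ j, j ∉ J → ⟪b j, P1 V⟫_ℝ = 0 ∧ ⟪b j, P2 V⟫_ℝ = 0) → ∀ t, 0 ≤ t →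
  ‖WithLp.toLp 2 (z1 t, z2 t) - S t V‖ ≤ ‖WithLp.toLp 2 (z1 0, z2 0) - V‖

/-- UNC. Uniqueness: every core solution is given by the limit flow.

PROOF. By density of the data with finitely many modes and the contraction property of `S` (PRS /
SPR), WSU holds for all `V`; take `V = z 0`. -/
def UncStmt : Prop := ∀ (X : Type) [MeasurableSpace X] (μ : Measure X) [IsFiniteMeasure μ]
  (a al : ℝ) (b : HilbertBasis ℕ ℝ (Lp ℝ 2 μ)) (om : ℕ → ℝ)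
  (R : Lp ℝ 2 μ →L[ℝ] Lp ℝ 2 μ) (W : ℝ → KK (Lp ℝ 2 μ) →L[ℝ] KK (Lp ℝ 2 μ))
  (Js : ℕ → Finset ℕ), Cor μ a al b om R W Js → Inp μ al b om → ∀ Z S,
  IsLim W (fun n : ℕ => nem μ (gl a al n)) Z S →
  ∀ z1 z2 : ℝ → Lp ℝ 2 μ, CoreSol μ a al b om z1 z2 → ∀ t, 0 ≤ t →
  WithLp.toLp 2 (z1 t, z2 t) = S t (WithLp.toLp 2 (z1 0, z2 0))

/-- WPC. Existence and contraction (so uniqueness) for core solutions: COR LIM SOL SPR UNC. -/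
def WpcStmt : Prop := ∀ (X : Type) [MeasurableSpace X] (μ : Measure X) (a al : ℝ)
  (b : HilbertBasis ℕ ℝ (Lp ℝ 2 μ)) (om : ℕ → ℝ), 0 < a → 0 < al → Inp μ al b om →
  (∀ x y : Lp ℝ 2 μ, ∃ z1 z2 : ℝ → Lp ℝ 2 μ, CoreSol μ a al b om z1 z2 ∧ z1 0 = x ∧ z2 0 = y) ∧
  ∀ z1 z2 w1 w2 : ℝ → Lp ℝ 2 μ, CoreSol μ a al b om z1 z2 → CoreSol μ a al b om w1 w2 →
    ∀ s t, 0 ≤ s → s ≤ t →
    ‖z1 t - w1 t‖ ^ 2 + ‖z2 t - w2 t‖ ^ 2 ≤ ‖z1 s - w1 s‖ ^ 2 + ‖z2 s - w2 s‖ ^ 2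

end

end Pool.Agent.BEL
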